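import Pool.Agent.TSpan94.Defs
import Pool.Agent.TSpan33.Defs

/-!
# Finite chordal graphs have perfect elimination orders (Dirac, Fulkerson and Gross)
-/

set_option autoImplicit false

namespace Pool.Agent.TSpan94

open SimpleGraph Pool.Agent.TSpan33

variable {V : Type*} {G : SimpleGraph V}

/-- adjacency in the cycle graph -/
theorem cyc_adj {n : ℕ} (hn : 3 ≤ n) {a b : Fin n} :
    (cycleGraph n).Adj a b ↔ a.val = b.val + 1 ∨ b.val = a.val + 1 ∨
      (a.val = 0 ∧ b.val = n - 1) ∨ (b.val = 0 ∧ a.val = n - 1) := by
  have key : ∀ a b : Fin n, (a - b).val = 1 ↔ a.val = b.val + 1 ∨ (a.val = 0 ∧ b.val = n - 1) := by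
    intro a b
    have ha := a.isLt
    have hb := b.isLt
    rw [Fin.sub_def]
    simp only
    by_cases h : b.val ≤ a.val
    · have e : n - b.val + a.val = (a.val - b.val) + n := by omega
      rw [e, Nat.add_mod_right, Nat.mod_eq_of_lt (by omega)]
      omega
    · rw [Nat.mod_eq_of_lt (by omega)]
      omega
  rw [cycleGraph_adj', key, key]
  tauto

/-- In a chordal graph, two neighbours of `u` that are joined by a path outside the closed
neighbourhood of `u` are adjacent. -/
theorem chord {u s s' : V} (hG : IsChordal G) (K : V → Prop) (hKu : ∀ c, K c → c ≠ u ∧ ¬ G.Adj u c)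
    (hus : G.Adj u s) (hus' : G.Adj u s') (hne : s ≠ s')
    (hseq : ∃ d, ∃ f : ℕ → V, f 0 = s ∧ f d = s' ∧ (∀ i < d, G.Adj (f i) (f (i + 1))) ∧
      ∀ i, 0 < i → i < d → K (f i)) : G.Adj s s' := by
  classical
  by_contra hna
  have hmin := fun m (h : m < Nat.find hseq) => Nat.find_min hseq h
  obtain ⟨f, h0, hd, hstep, hK⟩ := Nat.find_spec hseq
  set d := Nat.find hseq with hdef
  have hd2 : 2 ≤ d := by
    rcases Nat.lt_or_ge d 2 with h | h
    · exfalso
      have : d = 0 ∨ d = 1 := by omega
      rcases this with e | e
      · rw [e] at hd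
        exact hne (h0.symm.trans hd)
      · rw [e] at hd hstep
        have := hstep 0 (by omega)
        simp only [zero_add] at this
        rw [h0, hd] at this
        exact hna this
    · exact h
  have hshort : ∀ i j, i < j → j ≤ d → (f i = f j → False) ∧ (i + 1 < j → ¬ G.Adj (f i) (f j)) := by
    intro i j hij hjd
    constructor
    · intro e
      refine hmin (d - (j - i)) (by omega) ⟨fun k => if k ≤ i then f k else f (k + (j - i)), ?_, ?_,
        ?_, ?_⟩
      · simp [h0]
      · by_cases hjd' : j = d
        · subst hjd'
          have e1 : d - (d - i) = i := by omega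
          simp only [e1, le_refl, if_true]
          rw [e]
          exact hd
        · have e1 : ¬ (d - (j - i) ≤ i) := by omega
          simp only [e1, if_false]
          rw [← hd]
          congr 1
          omega
      · intro k hk
        by_cases h1 : k + 1 ≤ i
        · have h2 : k ≤ i := by omega
          simp only [h1, h2, if_true]
          exact hstep k (by omega)
        · by_cases h2 : k ≤ i
          · have h3 : k = i := by omega
            subst h3
            have h4 : ¬ (k + 1 ≤ k) := by omega
            simp only [le_refl, if_true, h4, if_false]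
            rw [e]
            have h5 : k + 1 + (j - k) = j + 1 := by omega
            rw [h5]
            exact hstep j (by omega)
          · simp only [h1, h2, if_false]
            have h5 : k + 1 + (j - i) = k + (j - i) + 1 := by omega
            rw [h5]
            exact hstep _ (by omega)
      · intro k hk0 hk
        by_cases h1 : k ≤ i
        · simp only [h1, if_true]
          exact hK k hk0 (by omega)
        · simp only [h1, if_false]
          exact hK _ (by omega) (by omega)
    · intro hij' hadj
      refine hmin (d - (j - i - 1)) (by omega)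
        ⟨fun k => if k ≤ i then f k else f (k + (j - i - 1)), ?_, ?_, ?_, ?_⟩
      · simp [h0]
      · have e1 : ¬ (d - (j - i - 1) ≤ i) := by omega
        simp only [e1, if_false]
        rw [← hd]
        congr 1
        omega
      · intro k hk
        by_cases h1 : k + 1 ≤ i
        · have h2 : k ≤ i := by omega
          simp only [h1, h2, if_true]
          exact hstep k (by omega)
        · by_cases h2 : k ≤ i
          · have h3 : k = i := by omega
            subst h3
            have h4 : ¬ (k + 1 ≤ k) := by omega
            simp only [le_refl, if_true, h4, if_false]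
            have h5 : k + 1 + (j - k - 1) = j := by omega
            rw [h5]
            exact hadj
          · simp only [h1, h2, if_false]
            have h5 : k + 1 + (j - i - 1) = k + (j - i - 1) + 1 := by omega
            rw [h5]
            exact hstep _ (by omega)
      · intro k hk0 hk
        by_cases h1 : k ≤ i
        · simp only [h1, if_true]
          exact hK k hk0 (by omega)
        · simp only [h1, if_false]
          exact hK _ (by omega) (by omega)
  have hadj : ∀ i j, i ≤ d → j ≤ d → (G.Adj (f i) (f j) ↔ i = j + 1 ∨ j = i + 1) := by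
    intro i j hi hj
    constructor
    · intro h
      rcases lt_trichotomy i j with hlt | heq | hgt
      · by_contra hcon
        exact (hshort i j hlt hj).2 (by omega) h
      · subst heq
        exact absurd h (G.loopless.irrefl _)
      · by_contra hcon
        exact (hshort j i hgt hi).2 (by omega) h.symm
    · rintro (h | h)
      · subst h
        exact (hstep j (by omega)).symm
      · subst h
        exact hstep i (by omega)
  have hinj : ∀ i j, i ≤ d → j ≤ d → f i = f j → i = j := by
    intro i j hi hj h
    rcases lt_trichotomy i j with hlt | heq | hgt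
    · exact absurd h (fun h => (hshort i j hlt hj).1 h)
    · exact heq
    · exact absurd h.symm (fun h => (hshort j i hgt hi).1 h)
  have hfu : ∀ i, i ≤ d → f i ≠ u := by
    intro i hi e
    by_cases h1 : i = 0
    · subst h1
      rw [h0] at e
      subst e
      exact G.loopless.irrefl _ hus
    · by_cases h2 : i = d
      · subst h2
        rw [hd] at e
        subst e
        exact G.loopless.irrefl _ hus'
      · exact (hKu _ (hK i (by omega) (by omega))).1 e
  have hfa : ∀ i, i ≤ d → (G.Adj u (f i) ↔ i = 0 ∨ i = d) := by
    intro i hi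
    constructor
    · intro h
      by_contra hcon
      push Not at hcon
      exact (hKu _ (hK i (by omega) (by omega))).2 h
    · rintro (h | h)
      · subst h
        rw [h0]
        exact hus
      · subst h
        rw [hd]
        exact hus'
  refine (hG (d + 2) (by omega)).false ⟨⟨fun i => if i.val ≤ d then f i.val else u, ?_⟩, ?_⟩
  · intro a b hab
    have ha := a.isLt
    have hb := b.isLt
    simp only at hab
    apply Fin.ext
    by_cases h1 : a.val ≤ d <;> by_cases h2 : b.val ≤ d
    · simp only [h1, h2, if_true] at hab
      exact hinj _ _ h1 h2 hab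
    · simp only [h1, h2, if_true, if_false] at hab
      exact absurd hab (hfu _ h1)
    · simp only [h1, h2, if_true, if_false] at hab
      exact absurd hab.symm (hfu _ h2)
    · omega
  · intro a b
    have ha := a.isLt
    have hb := b.isLt
    rw [cyc_adj (by omega)]
    simp only [Function.Embedding.coeFn_mk]
    by_cases h1 : a.val ≤ d <;> by_cases h2 : b.val ≤ d
    · simp only [h1, h2, if_true]
      rw [hadj _ _ h1 h2]
      omega
    · simp only [h1, h2, if_true, if_false]
      rw [G.adj_comm, hfa _ h1]
      omega
    · simp only [h1, h2, if_true, if_false]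
      rw [hfa _ h2]
      omega
    · simp only [h1, h2, if_false]
      constructor
      · intro h
        exact absurd h (G.loopless.irrefl _)
      · omega

/-- the neighbours of `z` in `A` form a clique -/
def Simp (G : SimpleGraph V) (A : Finset V) (z : V) : Prop :=
  ∀ a ∈ A, ∀ b ∈ A, G.Adj z a → G.Adj z b → a ≠ b → G.Adj a b

theorem exists_simp_far (hG : IsChordal G) : ∀ (n : ℕ) (A : Finset V), A.card ≤ n → ∀ u ∈ A,
    (∃ w ∈ A, w ≠ u ∧ ¬ G.Adj u w) → ∃ z ∈ A, z ≠ u ∧ ¬ G.Adj u z ∧ Simp G A z := by
  classical
  intro n
  induction n with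
  | zero =>
    intro A hA u hu
    rw [Nat.le_zero, Finset.card_eq_zero] at hA
    subst hA
    simp at hu
  | succ n ih =>
    rintro A hA u hu ⟨w₀, hw₀, hw₀u, hw₀a⟩
    -- the graph on the vertices of `A` outside the closed neighbourhood of `u`
    let P : V → Prop := fun w => w ∈ A ∧ w ≠ u ∧ ¬ G.Adj u w
    let H : SimpleGraph V :=
      { Adj := fun a b => G.Adj a b ∧ P a ∧ P b
        symm := ⟨fun _ _ h => ⟨h.1.symm, h.2.2, h.2.1⟩⟩
        loopless := ⟨fun _ h => G.loopless.irrefl _ h.1⟩ }
    let K : V → Prop := fun w => H.Reachable w₀ w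
    have hKP : ∀ w, K w → P w := by
      rintro w ⟨p⟩
      have hgen : ∀ (a b : V) (p : H.Walk a b), P a → P b := by
        intro a b p
        induction p with
        | nil => exact id
        | cons h _ ih => exact fun _ => ih h.2.2
      exact hgen _ _ p ⟨hw₀, hw₀u, hw₀a⟩
    have hK₀ : K w₀ := Reachable.refl _
    let S : V → Prop := fun s => s ∈ A ∧ ¬ K s ∧ ∃ c, K c ∧ G.Adj c s
    have hSu : ∀ s, S s → G.Adj u s := by
      rintro s ⟨hsA, hsK, c, hc, hcs⟩
      by_contra hn
      have hsu : s ≠ u := by
        rintro rfl
        exact (hKP c hc).2.2 hcs.symm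
      exact hsK (hc.trans (Adj.reachable ⟨hcs, hKP c hc, hsA, hsu, hn⟩))
    have hSclique : ∀ s s', S s → S s' → s ≠ s' → G.Adj s s' := by
      rintro s s' hs hs' hne
      obtain ⟨-, -, c, hc, hcs⟩ := id hs
      obtain ⟨-, -, c', hc', hcs'⟩ := id hs'
      obtain ⟨p⟩ := (hc.symm.trans hc')
      refine chord hG K (fun c hc => (hKP c hc).2) (hSu s hs) (hSu s' hs') hne
        ⟨p.length + 2, fun i => if i = 0 then s else if i = p.length + 2 then s'
          else p.getVert (i - 1), ?_, ?_, ?_, ?_⟩
      · simp
      · simp
      · intro i hi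
        by_cases h0 : i = 0
        · subst h0
          simpa using hcs.symm
        · by_cases h1 : i = p.length + 1
          · subst h1
            simpa using hcs'
          · have h2 : i < p.length + 1 := by omega
            have h3 : ¬ i = p.length + 2 := by omega
            have h4 : ¬ i + 1 = 0 := by omega
            have h5 : ¬ i + 1 = p.length + 2 := by omega
            simp only [h0, h3, h4, h5, if_false]
            have h6 := p.adj_getVert_succ (i := i - 1) (by omega)
            have h7 : i - 1 + 1 = i + 1 - 1 := by omega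
            rw [h7] at h6
            exact h6.1
      · intro i hi0 hi
        have h0 : ¬ i = 0 := by omega
        have h3 : ¬ i = p.length + 2 := by omega
        simp only [h0, h3, if_false]
        exact hc.trans ⟨p.take (i - 1)⟩
    let B : Finset V := A.filter (fun w => K w ∨ S w)
    have hBA : ∀ w, w ∈ B → w ∈ A := fun w hw => (Finset.mem_filter.1 hw).1
    have huB : u ∉ B := by
      intro h
      rcases (Finset.mem_filter.1 h).2 with h | h
      · exact (hKP u h).2.1 rfl
      · exact G.loopless.irrefl _ (hSu u h)
    have hBcard : B.card ≤ n := by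
      have : B ⊂ A := by
        refine ⟨Finset.filter_subset _ _, fun h => huB (h hu)⟩
      have := Finset.card_lt_card this
      omega
    have hKB : ∀ z, K z → ∀ a ∈ A, G.Adj z a → a ∈ B := by
      intro z hz a ha hza
      refine Finset.mem_filter.2 ⟨ha, ?_⟩
      by_cases hKa : K a
      · exact Or.inl hKa
      · exact Or.inr ⟨ha, hKa, z, hz, hza⟩
    have hup : ∀ z, K z → Simp G B z → Simp G A z := by
      intro z hz hS a ha b hb hza hzb hab
      exact hS a (hKB z hz a ha hza) b (hKB z hz b hb hzb) hza hzb hab
    have hfin : ∀ z ∈ B, ¬ S z → Simp G B z → ∃ z ∈ A, z ≠ u ∧ ¬ G.Adj u z ∧ Simp G A z := by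
      intro z hz hzS hs
      have hKz : K z := by
        rcases (Finset.mem_filter.1 hz).2 with h | h
        · exact h
        · exact absurd h hzS
      exact ⟨z, hBA z hz, (hKP z hKz).2.1, (hKP z hKz).2.2, hup z hKz hs⟩
    by_cases hcomp : ∀ a ∈ B, ∀ b ∈ B, a ≠ b → G.Adj a b
    · refine ⟨w₀, hw₀, hw₀u, hw₀a, hup w₀ hK₀ ?_⟩
      intro a ha b hb _ _ hab
      exact hcomp a ha b hb hab
    by_cases hSuniv : ∀ s, S s → ∀ t ∈ B, t ≠ s → G.Adj s t
    · push Not at hcomp
      obtain ⟨a, ha, b, hb, hab, hnab⟩ := hcomp
      obtain ⟨z, hz, hza, hnz, hs⟩ := ih B hBcard a ha ⟨b, hb, hab.symm, hnab⟩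
      refine hfin z hz (fun hzS => ?_) hs
      exact hnz (hSuniv z hzS a ha hza.symm).symm
    · push Not at hSuniv
      obtain ⟨s, hs, t, ht, hts, hnst⟩ := hSuniv
      have hsB : s ∈ B := Finset.mem_filter.2 ⟨hs.1, Or.inr hs⟩
      obtain ⟨z, hz, hzs, hnz, hsz⟩ := ih B hBcard s hsB ⟨t, ht, hts, hnst⟩
      refine hfin z hz (fun hzS => ?_) hsz
      exact hnz (hSclique s z hs hzS hzs.symm)

theorem exists_simp (hG : IsChordal G) : ∀ (n : ℕ) (A : Finset V), A.card ≤ n → A.Nonempty →
    ∃ z ∈ A, Simp G A z := by
  classical
  intro n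
  induction n with
  | zero =>
    intro A hA hne
    rw [Nat.le_zero, Finset.card_eq_zero] at hA
    subst hA
    simp at hne
  | succ n ih =>
    rintro A hA ⟨u, hu⟩
    by_cases hex : ∃ w ∈ A, w ≠ u ∧ ¬ G.Adj u w
    · obtain ⟨z, hz, _, _, hs⟩ := exists_simp_far hG _ A le_rfl u hu hex
      exact ⟨z, hz, hs⟩
    · push Not at hex
      by_cases hne : (A.erase u).Nonempty
      · have hcard : (A.erase u).card ≤ n := by
          rw [Finset.card_erase_of_mem hu]
          omega
        obtain ⟨z, hz, hs⟩ := ih (A.erase u) hcard hne
        refine ⟨z, Finset.mem_of_mem_erase hz, ?_⟩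
        intro a ha b hb hza hzb hab
        by_cases hau : a = u
        · subst hau
          exact hex b hb hab.symm
        · by_cases hbu : b = u
          · subst hbu
            exact (hex a ha hab).symm
          · exact hs a (Finset.mem_erase.2 ⟨hau, ha⟩) b (Finset.mem_erase.2 ⟨hbu, hb⟩) hza hzb hab
      · refine ⟨u, hu, ?_⟩
        intro a ha b hb hza hzb hab
        exfalso
        refine hne ⟨a, Finset.mem_erase.2 ⟨?_, ha⟩⟩
        rintro rfl
        exact G.loopless.irrefl _ hza

theorem exists_order (hG : IsChordal G) : ∀ (n : ℕ) (A : Finset V), A.card = n →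
    ∃ π : V → ℕ, (∀ a ∈ A, ∀ b ∈ A, π a = π b → a = b) ∧
      ∀ j ∈ A, ∀ a ∈ A, ∀ b ∈ A, G.Adj j a → G.Adj j b → π j < π a → π j < π b → a ≠ b →
        G.Adj a b := by
  classical
  intro n
  induction n with
  | zero =>
    intro A hA
    rw [Finset.card_eq_zero] at hA
    subst hA
    exact ⟨fun _ => 0, by simp, by simp⟩
  | succ n ih =>
    intro A hA
    have hne : A.Nonempty := by
      rw [← Finset.card_pos]
      omega
    obtain ⟨z, hz, hs⟩ := exists_simp hG _ A le_rfl hne
    obtain ⟨π, h1, h2⟩ := ih (A.erase z) (by rw [Finset.card_erase_of_mem hz]; omega)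
    refine ⟨fun w => if w = z then 0 else π w + 1, ?_, ?_⟩
    · intro a ha b hb hab
      by_cases haz : a = z <;> by_cases hbz : b = z
      · rw [haz, hbz]
      · simp [haz, hbz] at hab
      · simp [haz, hbz] at hab
      · simp only [haz, hbz, if_false] at hab
        exact h1 a (Finset.mem_erase.2 ⟨haz, ha⟩) b (Finset.mem_erase.2 ⟨hbz, hb⟩) (by omega)
    · intro j hj a ha b hb hja hjb hla hlb hab
      by_cases hjz : j = z
      · subst hjz
        exact hs a ha b hb hja hjb hab
      · by_cases haz : a = z
        · simp [haz] at hla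
        by_cases hbz : b = z
        · simp [hbz] at hlb
        simp only [hjz, haz, hbz, if_false] at hla hlb
        exact h2 j (Finset.mem_erase.2 ⟨hjz, hj⟩) a (Finset.mem_erase.2 ⟨haz, ha⟩) b
          (Finset.mem_erase.2 ⟨hbz, hb⟩) hja hjb (by omega) (by omega) hab

/-- A finite chordal graph has a perfect elimination order. -/
theorem exists_peo [Finite V] (hG : IsChordal G) : ∃ π, IsPEO G π := by
  classical
  have := Fintype.ofFinite V
  obtain ⟨π, h1, h2⟩ := exists_order hG _ Finset.univ rfl
  refine ⟨π, fun a b h => h1 a (Finset.mem_univ _) b (Finset.mem_univ _) h, ?_⟩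
  intro j a b ha hb hab
  exact h2 j (Finset.mem_univ _) a (Finset.mem_univ _) b (Finset.mem_univ _) ha.1 hb.1 ha.2 hb.2 hab

end Pool.Agent.TSpan94
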