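import Pool.Agent.TSpan94.Tree
import Pool.Agent.TSpan94.Dirac

/-!
# The Horn formula is satisfiable iff there is a tree 3-spanner; its size
-/

set_option autoImplicit false

namespace Pool.Agent.TSpan94

open SimpleGraph Pool.Agent.TSpan33

variable {V : Type*} {G : SimpleGraph V} {π : V → ℕ}

theorem satisfiable_iff : Satisfiable (horn G π) ↔ Top G π := by
  constructor
  · rintro ⟨τ, hτ⟩
    have hsome : ∀ B h, HornClause G π B (some h) → B ⊆ τ → h ∈ τ := by
      intro B h hc hB
      obtain ⟨a, ha, hah⟩ := hτ (B, some h) hc hB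
      have : h = a := Option.some.inj hah
      rw [this]
      exact ha
    have hder : ∀ A, Der G π A → A ∈ τ := by
      intro A hA
      induction hA with
      | refl j x y m => exact hsome _ _ (HornClause.refl j x y m) (Set.empty_subset _)
      | top j x y m => exact hsome _ _ (HornClause.top j x y m) (Set.empty_subset _)
      | trans j x y a b c _ _ ih₁ ih₂ =>
        refine hsome _ _ (HornClause.trans j x y a b c) ?_
        rintro z (rfl | rfl)
        · exact ih₁
        · exact ih₂
      | swap j x y a b _ ih =>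
        refine hsome _ _ (HornClause.swap j x y a b) ?_
        rintro z rfl
        exact ih
      | far j x y m hm hx hy ha =>
        exact hsome _ _ (HornClause.far j x y m hm hx hy ha) (Set.empty_subset _)
      | mixed j l x y a b hl ha hb hax hay hbx hby _ ih =>
        refine hsome _ _ (HornClause.mixed j l x y a b hl ha hb hax hay hbx hby) ?_
        rintro z rfl
        exact ih
      | pure j l x y a hl ha hax hay _ _ ih₁ ih₂ =>
        refine hsome _ _ (HornClause.pure j l x y a hl ha hax hay) ?_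
        rintro z (rfl | rfl)
        · exact ih₁
        · exact ih₂
      | edge j l x y hl ha _ ih =>
        refine hsome _ _ (HornClause.edge j l x y hl ha) ?_
        rintro z rfl
        exact ih
      | fail j x y s hs _ ih =>
        refine hsome _ _ (HornClause.fail j x y s hs) ?_
        rintro z rfl
        exact ih
      | bad j c _ ih =>
        refine hsome _ _ (HornClause.bad j c) ?_
        rintro z ⟨x, y, hxy, rfl⟩
        exact ih x y hxy
    intro l s hs hone hb
    have hmem : (({Atom.bad l s}, none) : Set (Atom V) × Option (Atom V)) ∈ horn G π :=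
      HornClause.goal l s hs hone
    obtain ⟨a, _, ha⟩ := hτ _ hmem (by
      rintro z rfl
      exact hder _ hb)
    exact absurd ha (by simp)
  · intro htop
    refine ⟨{A | Der G π A}, ?_⟩
    rintro ⟨B, h⟩ hc hB
    change HornClause G π B h at hc
    change B ⊆ {A | Der G π A} at hB
    change ∃ a ∈ {A | Der G π A}, h = some a
    cases hc with
    | refl j x y a => exact ⟨_, Der.refl j x y a, rfl⟩
    | top j x y a => exact ⟨_, Der.top j x y a, rfl⟩
    | trans j x y a b c =>
      exact ⟨_, Der.trans j x y a b c (hB (Or.inl rfl)) (hB (Or.inr rfl)), rfl⟩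
    | swap j x y a b => exact ⟨_, Der.swap j x y a b (hB rfl), rfl⟩
    | far j x y a ha hx hy hax => exact ⟨_, Der.far j x y a ha hx hy hax, rfl⟩
    | mixed j l x y a b hl ha hb hax hay hbx hby =>
      exact ⟨_, Der.mixed j l x y a b hl ha hb hax hay hbx hby (hB rfl), rfl⟩
    | pure j l x y a hl ha hax hay =>
      exact ⟨_, Der.pure j l x y a hl ha hax hay (hB (Or.inl rfl)) (hB (Or.inr rfl)), rfl⟩
    | edge j l x y hl ha => exact ⟨_, Der.edge j l x y hl ha (hB rfl), rfl⟩
    | fail j x y s hs => exact ⟨_, Der.fail j x y s hs (hB rfl), rfl⟩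
    | bad j c => exact ⟨_, Der.bad j c (fun x y hxy => hB ⟨x, y, hxy, rfl⟩), rfl⟩
    | goal l s hs hone => exact absurd (hB rfl) (htop l s hs hone)

/-- enumeration of the clauses -/
def clauseOf (G : SimpleGraph V) (π : V → ℕ) (i : Fin 11) (v : Fin 6 → V) :
    Set (Atom V) × Option (Atom V) :=
  match i with
  | 0 => (∅, some (.imp (v 0) (v 1) (v 2) (v 3) (v 3)))
  | 1 => (∅, some (.imp (v 0) (v 1) (v 2) (v 3) (v 2)))
  | 2 => ({.imp (v 0) (v 1) (v 2) (v 3) (v 4), .imp (v 0) (v 1) (v 2) (v 4) (v 5)},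
      some (.imp (v 0) (v 1) (v 2) (v 3) (v 5)))
  | 3 => ({.imp (v 0) (v 2) (v 1) (v 4) (v 3)}, some (.imp (v 0) (v 1) (v 2) (v 3) (v 4)))
  | 4 => (∅, some (.imp (v 0) (v 1) (v 2) (v 2) (v 3)))
  | 5 => ({.imp (v 5) (v 1) (v 2) (v 3) (v 4)}, some (.imp (v 0) (v 1) (v 2) (v 3) (v 4)))
  | 6 => ({.bad (v 5) (v 1), .imp (v 5) (v 1) (v 2) (v 2) (v 3)},
      some (.imp (v 0) (v 1) (v 2) (v 2) (v 3)))
  | 7 => ({.bad (v 5) (v 1)}, some (.imp (v 0) (v 1) (v 2) (v 2) (v 1)))
  | 8 => ({.imp (v 0) (v 1) (v 2) (v 2) (v 3)}, some (.fail (v 0) (v 1) (v 2)))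
  | 9 => ({A | ∃ x y, Choice G π (v 0) (v 1) x y ∧ A = .fail (v 0) x y}, some (.bad (v 0) (v 1)))
  | 10 => ({.bad (v 0) (v 1)}, none)

theorem horn_subset : horn G π ⊆
    Set.range (fun p : Fin 11 × (Fin 6 → V) => clauseOf G π p.1 p.2) := by
  rintro ⟨B, h⟩ hc
  change HornClause G π B h at hc
  cases hc with
  | refl j x y a => exact ⟨(0, ![j, x, y, a, j, j]), rfl⟩
  | top j x y a => exact ⟨(1, ![j, x, y, a, j, j]), rfl⟩
  | trans j x y a b c => exact ⟨(2, ![j, x, y, a, b, c]), rfl⟩
  | swap j x y a b => exact ⟨(3, ![j, x, y, a, b, j]), rfl⟩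
  | far j x y a ha hx hy hax => exact ⟨(4, ![j, x, y, a, j, j]), rfl⟩
  | mixed j l x y a b hl ha hb hax hay hbx hby => exact ⟨(5, ![j, x, y, a, b, l]), rfl⟩
  | pure j l x y a hl ha hax hay => exact ⟨(6, ![j, x, y, a, j, l]), rfl⟩
  | edge j l x y hl ha => exact ⟨(7, ![j, x, y, j, j, l]), rfl⟩
  | fail j x y s hs => exact ⟨(8, ![j, x, y, s, j, j]), rfl⟩
  | bad j c => exact ⟨(9, ![j, c, j, j, j, j]), rfl⟩
  | goal l s hs hone => exact ⟨(10, ![l, s, l, l, l, l]), rfl⟩

/-- number of clauses -/
theorem card_horn [Fintype V] : (horn G π).ncard ≤ 11 * Fintype.card V ^ 6 := by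
  classical
  refine (Set.ncard_le_ncard horn_subset (Set.finite_range _)).trans ?_
  rw [← Set.image_univ]
  refine (Set.ncard_image_le Set.finite_univ).trans ?_
  rw [Set.ncard_univ, Nat.card_eq_fintype_card]
  simp

/-- size of the clauses -/
theorem card_body [Fintype V] {c : Set (Atom V) × Option (Atom V)} (hc : c ∈ horn G π) :
    c.1.ncard ≤ Fintype.card V ^ 2 + 2 := by
  classical
  obtain ⟨B, h⟩ := c
  change HornClause G π B h at hc
  change B.ncard ≤ _
  have h1 : ∀ A : Atom V, ({A} : Set (Atom V)).ncard ≤ Fintype.card V ^ 2 + 2 := fun A => by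
    rw [Set.ncard_singleton]
    omega
  have h2 : ∀ A A' : Atom V, ({A, A'} : Set (Atom V)).ncard ≤ Fintype.card V ^ 2 + 2 :=
    fun A A' => (Set.ncard_insert_le _ _).trans (by rw [Set.ncard_singleton]; omega)
  cases hc with
  | refl j x y a => simp
  | top j x y a => simp
  | trans j x y a b c => exact h2 _ _
  | swap j x y a b => exact h1 _
  | far j x y a ha hx hy hax => simp
  | mixed j l x y a b hl ha hb hax hay hbx hby => exact h1 _
  | pure j l x y a hl ha hax hay => exact h2 _ _
  | edge j l x y hl ha => exact h1 _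
  | fail j x y s hs => exact h1 _
  | bad j c =>
    have hsub : {A : Atom V | ∃ x y, Choice G π j c x y ∧ A = .fail j x y} ⊆
        Set.range (fun p : V × V => Atom.fail j p.1 p.2) := by
      rintro A ⟨x, y, _, rfl⟩
      exact ⟨(x, y), rfl⟩
    refine (Set.ncard_le_ncard hsub (Set.finite_range _)).trans ?_
    rw [← Set.image_univ]
    refine (Set.ncard_image_le Set.finite_univ).trans ?_
    rw [Set.ncard_univ, Nat.card_eq_fintype_card, Fintype.card_prod]
    nlinarith
  | goal l s hs hone => exact h1 _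

/-- TREE 3-SPANNER on chordal graphs is a polynomial size HORN-SAT instance. -/
theorem main_three [Fintype V] (hG : G.Connected) (hc : IsChordal G) :
    (∃ π, IsPEO G π) ∧ ∀ π, IsPEO G π →
      ((∃ T, IsTreeSpanner 3 G T) ↔ Satisfiable (horn G π)) ∧
      (horn G π).ncard ≤ 11 * Fintype.card V ^ 6 ∧
      ∀ c ∈ horn G π, c.1.ncard ≤ Fintype.card V ^ 2 + 2 := by
  refine ⟨exists_peo hc, fun π hπ => ⟨?_, card_horn, fun c hc => card_body hc⟩⟩
  rw [exists_iff hG hπ, satisfiable_iff]

end Pool.Agent.TSpan94
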