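import Pool.Agent.TSpan94.Sound

/-!
# Building a tree 3-spanner from a consistent Horn program
-/

set_option autoImplicit false

namespace Pool.Agent.TSpan94

open SimpleGraph Pool.Agent.TSpan33

variable {V : Type*} {G : SimpleGraph V} {π : V → ℕ}

/-- `w` is below `j` in the elimination tree -/
def Below (G : SimpleGraph V) (π : V → ℕ) (w j : V) : Prop :=
  Relation.ReflTransGen (Par G π) w j

theorem par_unique (hπ : IsPEO G π) {l a b : V} (ha : Par G π l a) (hb : Par G π l b) : a = b := by
  have h1 := ha.2 b hb.1
  have h2 := hb.2 a ha.1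
  exact hπ.1 (le_antisymm h1 h2)

theorem par_lt {l j : V} (h : Par G π l j) : π l < π j := h.1.2

theorem below_le {w j : V} (h : Below G π w j) : π w ≤ π j := by
  induction h with
  | refl => exact le_rfl
  | tail _ h ih => exact ih.trans (par_lt h).le

theorem below_cases {w j : V} (h : Below G π w j) : w = j ∨ ∃ l, Par G π l j ∧ Below G π w l := by
  rcases Relation.ReflTransGen.cases_tail h with h | ⟨l, h1, h2⟩
  · exact Or.inl h.symm
  · exact Or.inr ⟨l, h2, h1⟩

theorem below_child_unique (hπ : IsPEO G π) {w l l' j : V} (hl : Par G π l j) (hl' : Par G π l' j)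
    (h : Below G π w l) (h' : Below G π w l') : l = l' := by
  have key : ∀ l l' : V, Par G π l j → Par G π l' j → Below G π l l' → l = l' := by
    intro l l' hl hl' hb
    rcases Relation.ReflTransGen.cases_head hb with h | ⟨p, h1, h2⟩
    · exact h
    · exfalso
      have e := par_unique hπ h1 hl
      subst e
      have := below_le (show Below G π p l' from h2)
      have := par_lt hl'
      omega
  have hU : Relator.RightUnique (Par G π) := fun a b c hb hc => par_unique hπ hb hc
  rcases Relation.ReflTransGen.total_of_right_unique hU h h' with h1 | h1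
  · exact key _ _ hl hl' h1
  · exact (key _ _ hl' hl h1).symm

theorem exists_par {u a : V} (h : Later G π u a) : ∃ p, Par G π u p := by
  classical
  have hex : ∃ n, ∃ b, Later G π u b ∧ π b = n := ⟨_, a, h, rfl⟩
  obtain ⟨b, hb, hbn⟩ := Nat.find_spec hex
  refine ⟨b, hb, fun c hc => ?_⟩
  rw [hbn]
  exact Nat.find_min' hex ⟨c, hc, rfl⟩

theorem later_below (hπ : IsPEO G π) {u a : V} (h : Later G π u a) : Below G π u a := by
  have key : ∀ n : ℕ, ∀ u : V, Later G π u a → π a - π u ≤ n → Below G π u a := by
    intro n
    induction n with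
    | zero =>
      intro u hu hn
      have := hu.2
      omega
    | succ n ih =>
      intro u hu hn
      obtain ⟨p, hp⟩ := exists_par hu
      rcases hp.later hπ hu with e | h1
      · subst e
        exact Relation.ReflTransGen.single hp
      · refine Relation.ReflTransGen.head hp (ih p h1 ?_)
        have := par_lt hp
        have := h1.2
        omega
  exact key _ u h le_rfl

theorem below_adj (hπ : IsPEO G π) {w j u : V} (h : Below G π w j) (ha : G.Adj w u) :
    Below G π u j ∨ Later G π j u := by
  induction h with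
  | refl =>
    rcases lt_trichotomy (π w) (π u) with h | h | h
    · exact Or.inr ⟨ha, h⟩
    · exact absurd (hπ.1 h) ha.ne
    · exact Or.inl (later_below hπ ⟨ha.symm, h⟩)
  | tail _ h ih =>
    rcases ih with h1 | h1
    · exact Or.inl (Relation.ReflTransGen.tail h1 h)
    · rcases h.later hπ h1 with e | h2
      · subst e
        exact Or.inl Relation.ReflTransGen.refl
      · exact Or.inr h2

/-- one step, or none, along `R` in either direction -/
def St (R : V → V → Prop) (a b : V) : Prop := a = b ∨ R a b ∨ R b a

/-- at most three steps -/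
def W3 (R : V → V → Prop) (u v : V) : Prop := ∃ a b, St R u a ∧ St R a b ∧ St R b v

theorem St.symm {R : V → V → Prop} {a b : V} (h : St R a b) : St R b a := by
  rcases h with h | h | h
  · exact Or.inl h.symm
  · exact Or.inr (Or.inr h)
  · exact Or.inr (Or.inl h)

theorem W3.symm {R : V → V → Prop} {u v : V} (h : W3 R u v) : W3 R v u := by
  obtain ⟨a, b, h1, h2, h3⟩ := h
  exact ⟨b, a, h3.symm, h2.symm, h1.symm⟩

theorem St.mono {R R' : V → V → Prop} (hR : ∀ a b, R a b → St R' a b) {u v : V}
    (h : St R u v) : St R' u v := by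
  rcases h with h | h | h
  · exact Or.inl h
  · exact hR _ _ h
  · exact (hR _ _ h).symm

theorem W3.mono {R R' : V → V → Prop} (hR : ∀ a b, R a b → St R' a b) {u v : V}
    (h : W3 R u v) : W3 R' u v := by
  obtain ⟨a, b, h1, h2, h3⟩ := h
  exact ⟨a, b, h1.mono hR, h2.mono hR, h3.mono hR⟩

/-- The part of a spanner below `j`: every vertex below `j` outside `S` gets a parent, and all
edges at vertices below `j` are spanned by the parent edges and the edges `E`. -/
def Ext (G : SimpleGraph V) (π : V → ℕ) (j : V) (S : V → Prop) (E : V → V → Prop) : Prop :=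
  ∃ (p : V → V) (rk : V → ℕ),
    (∀ w, Below G π w j → ¬ S w →
      G.Adj w (p w) ∧ (S (p w) ∨ (Below G π (p w) j ∧ rk (p w) < rk w))) ∧
    (∀ u v, Below G π u j → G.Adj u v →
      W3 (fun a b => E a b ∨ (Below G π a j ∧ ¬ S a ∧ p a = b)) u v)

/-- join the parts below the children -/
theorem ext_join (hπ : IsPEO G π) {j : V} {S : V → Prop} {E : V → V → Prop} (hj : S j)
    (hch : ∀ l, Par G π l j → ∃ S' E', Ext G π l S' E' ∧ (∀ w, S' w → S w) ∧
      (∀ a b, E' a b → St E a b) ∧ (∀ w, S w → Below G π w l → S' w))
    (hE : ∀ v, Later G π j v → W3 E j v) : Ext G π j S E := by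
  classical
  choose! S' E' hX ha hb hc using hch
  unfold Ext at hX
  choose! P RK h1 h2 using hX
  set f : V → V := fun w => if h : ∃ l, Par G π l j ∧ Below G π w l then h.choose else w with hf
  have hfl : ∀ l w, Par G π l j → Below G π w l → f w = l := by
    intro l w hl hw
    have hex : ∃ l, Par G π l j ∧ Below G π w l := ⟨l, hl, hw⟩
    rw [hf]
    simp only [hex, ↓reduceDIte]
    exact below_child_unique hπ hex.choose_spec.1 hl hex.choose_spec.2 hw
  have hlow : ∀ l w, Par G π l j → Below G π w l → Below G π w j :=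
    fun l w hl hw => Relation.ReflTransGen.tail hw hl
  have hmain : ∀ l u v, Par G π l j → Below G π u l → G.Adj u v →
      W3 (fun a b => E a b ∨ (Below G π a j ∧ ¬ S a ∧ P (f a) a = b)) u v := by
    intro l u v hl hu huv
    refine (h2 l hl u v hu huv).mono ?_
    rintro a b (h | ⟨hal, haS, hab⟩)
    · exact (hb l hl a b h).mono (fun _ _ h => Or.inr (Or.inl (Or.inl h)))
    · right
      left
      right
      refine ⟨hlow l a hl hal, fun h => haS (hc l hl a h hal), ?_⟩
      rw [hfl l a hl hal]
      exact hab
  refine ⟨fun w => P (f w) w, fun w => RK (f w) w, ?_, ?_⟩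
  · intro w hw hwS
    rcases below_cases hw with rfl | ⟨l, hl, hwl⟩
    · exact absurd hj hwS
    · have hwl' : ¬ S' l w := fun h => hwS (ha l hl w h)
      obtain ⟨h3, h4⟩ := h1 l hl w hwl hwl'
      simp only [hfl l w hl hwl]
      refine ⟨h3, ?_⟩
      rcases h4 with h4 | ⟨h4, h5⟩
      · exact Or.inl (ha l hl _ h4)
      · refine Or.inr ⟨hlow l _ hl h4, ?_⟩
        rw [hfl l _ hl h4]
        exact h5
  · intro u v hu huv
    rcases below_cases hu with rfl | ⟨l, hl, hul⟩
    · rcases below_adj hπ hu huv with hv | hv
      · rcases below_cases hv with rfl | ⟨l, hl, hvl⟩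
        · exact absurd rfl huv.ne
        · exact (hmain l v u hl hvl huv.symm).symm
      · exact (hE v hv).mono (fun _ _ h => Or.inr (Or.inl (Or.inl h)))
    · exact hmain l u v hl hul huv

/-- attach new vertices -/
theorem ext_attach {j : V} {S S' : V → Prop} {E E' : V → V → Prop} (hX : Ext G π j S' E')
    (hS : ∀ w, S w → S' w) (q : V → V) (rq : V → ℕ) (hM : ∀ w, rq w < 4)
    (hq : ∀ w, S' w → ¬ S w → Below G π w j ∧ G.Adj w (q w) ∧
      (S (q w) ∨ (S' (q w) ∧ rq (q w) < rq w)))
    (hE : ∀ a b, E' a b → St (fun a b => E a b ∨ (S' a ∧ ¬ S a ∧ q a = b)) a b) :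
    Ext G π j S E := by
  classical
  obtain ⟨p, rk, h1, h2⟩ := hX
  refine ⟨fun w => if S' w then q w else p w, fun w => if S' w then rq w else 4 + rk w, ?_, ?_⟩
  · intro w hw hwS
    by_cases hw' : S' w
    · obtain ⟨h3, h4, h5⟩ := hq w hw' hwS
      simp only [hw', if_true]
      refine ⟨h4, ?_⟩
      rcases h5 with h5 | ⟨h5, h6⟩
      · exact Or.inl h5
      · by_cases h7 : S (q w)
        · exact Or.inl h7
        · right
          refine ⟨(hq _ h5 h7).1, ?_⟩
          simp only [h5, if_true]
          exact h6
    · obtain ⟨h3, h4⟩ := h1 w hw hw'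
      simp only [hw', if_false]
      refine ⟨h3, ?_⟩
      by_cases h7 : S (p w)
      · exact Or.inl h7
      · right
        rcases h4 with h4 | ⟨h4, h5⟩
        · refine ⟨(hq _ h4 h7).1, ?_⟩
          simp only [h4, if_true]
          have := hM (p w)
          omega
        · refine ⟨h4, ?_⟩
          by_cases h8 : S' (p w)
          · simp only [h8, if_true]
            have := hM (p w)
            omega
          · simp only [h8, if_false]
            omega
  · intro u v hu huv
    refine (h2 u v hu huv).mono ?_
    rintro a b (h | ⟨h3, h4, h5⟩)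
    · refine (hE a b h).mono ?_
      rintro a b (h | ⟨h3, h4, h5⟩)
      · exact Or.inr (Or.inl (Or.inl h))
      · right
        left
        right
        refine ⟨(hq a h3 h4).1, h4, ?_⟩
        simp only [h3, if_true]
        exact h5
    · right
      left
      right
      refine ⟨h3, fun h => h4 (hS a h), ?_⟩
      simp only [h4, if_false]
      exact h5

/-- only the symmetrised edges matter -/
theorem Ext.congr {j : V} {S S' : V → Prop} {E E' : V → V → Prop} (hX : Ext G π j S E)
    (hS : ∀ w, S w ↔ S' w) (hE : ∀ a b, E a b → St E' a b) : Ext G π j S' E' := by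
  have : S = S' := funext fun w => propext (hS w)
  subst this
  obtain ⟨p, rk, h1, h2⟩ := hX
  refine ⟨p, rk, h1, fun u v hu huv => (h2 u v hu huv).mono ?_⟩
  rintro a b (h | h)
  · exact (hE a b h).mono (fun _ _ h => Or.inr (Or.inl (Or.inl h)))
  · exact Or.inr (Or.inl (Or.inr h))

end Pool.Agent.TSpan94
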