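import Mathlib

/-!
# A Horn formula for tree 3-spanners of chordal graphs: definitions
-/

set_option autoImplicit false

namespace Pool.Agent.TSpan94

open SimpleGraph

variable {V : Type*}

/-- `a ∈ N⁺(j)`: `a` is a neighbour of `j` that comes later in the order `π`. -/
def Later (G : SimpleGraph V) (π : V → ℕ) (j a : V) : Prop := G.Adj j a ∧ π j < π a

/-- `π` is a perfect elimination order of `G`: the later neighbours of every vertex form a
clique. -/
def IsPEO (G : SimpleGraph V) (π : V → ℕ) : Prop :=
  Function.Injective π ∧ ∀ j a b, Later G π j a → Later G π j b → a ≠ b → G.Adj a b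

/-- `j` is the first later neighbour of `l`. -/
def Par (G : SimpleGraph V) (π : V → ℕ) (l j : V) : Prop :=
  Later G π l j ∧ ∀ a, Later G π l a → π j ≤ π a

/-- `j` is the first later neighbour of `l`, and `l` has another later neighbour. -/
def Child (G : SimpleGraph V) (π : V → ℕ) (l j : V) : Prop :=
  Par G π l j ∧ ∃ a, Later G π l a ∧ a ≠ j

/-- The propositional variables of the Horn formula. Meaning of the variables, where `N⁺(j)` is
the set of later neighbours of `j`:
* `imp j x y a b`: in every tree 3-spanner that has the edge `xy` and in which every vertex of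
  `{j} ∪ N⁺(j)` is at distance at most 1 from `x` or from `y`, if `a` is closer to `y` than to
  `x`, then so is `b`.
* `fail j x y`: there is no such tree 3-spanner in which moreover every vertex of `N⁺(j)` is at
  distance at most 1 from `x`.
* `bad j c`: there is no tree 3-spanner in which every vertex of `N⁺(j)` is at distance at
  most 1 from `c`. -/
inductive Atom (V : Type*)
  | imp (j x y a b : V)
  | fail (j x y : V)
  | bad (j c : V)

/-- The ordered edges `(x, y)` to be tried for `bad j c`. -/
def Choice (G : SimpleGraph V) (π : V → ℕ) (j c x y : V) : Prop :=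
  G.Adj x y ∧ (x = c ∨ (Later G π j c ∧ G.Adj c x ∧ y ≠ c ∧
    ∀ a, Later G π j a → a = c ∨ a = x))

/-- The clauses of the Horn formula: `HornClause G π B h` says that `B → h` is a clause, where
`B` is a set of variables and `h` is a variable or, if it is `none`, falsity. -/
inductive HornClause (G : SimpleGraph V) (π : V → ℕ) : Set (Atom V) → Option (Atom V) → Prop
  | refl (j x y a : V) : HornClause G π ∅ (some (.imp j x y a a))
  | top (j x y a : V) : HornClause G π ∅ (some (.imp j x y a y))
  | trans (j x y a b c : V) :
      HornClause G π {.imp j x y a b, .imp j x y b c} (some (.imp j x y a c))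
  | swap (j x y a b : V) : HornClause G π {.imp j y x b a} (some (.imp j x y a b))
  | far (j x y a : V) (ha : a = j ∨ Later G π j a) (hx : a ≠ x) (hy : a ≠ y)
      (hax : ¬ G.Adj a x) : HornClause G π ∅ (some (.imp j x y y a))
  | mixed (j l x y a b : V) (hl : Child G π l j) (ha : Later G π l a) (hb : Later G π l b)
      (hax : a ≠ x) (hay : a ≠ y) (hbx : b ≠ x) (hby : b ≠ y) :
      HornClause G π {.imp l x y a b} (some (.imp j x y a b))
  | pure (j l x y a : V) (hl : Child G π l j) (ha : Later G π l a) (hax : a ≠ x) (hay : a ≠ y) :
      HornClause G π {.bad l x, .imp l x y y a} (some (.imp j x y y a))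
  | edge (j l x y : V) (hl : Child G π l j) (ha : ∀ a, Later G π l a → a = x ∨ a = y) :
      HornClause G π {.bad l x} (some (.imp j x y y x))
  | fail (j x y s : V) (hs : (Later G π j s ∧ s ≠ y) ∨ s = x) :
      HornClause G π {.imp j x y y s} (some (.fail j x y))
  | bad (j c : V) :
      HornClause G π {A | ∃ x y, Choice G π j c x y ∧ A = .fail j x y} (some (.bad j c))
  | goal (l s : V) (hs : Later G π l s) (h : ∀ a, Later G π l a → a = s) :
      HornClause G π {.bad l s} none

/-- The Horn formula of `G` and `π`, a set of clauses (body, head). -/
def horn (G : SimpleGraph V) (π : V → ℕ) : Set (Set (Atom V) × Option (Atom V)) :=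
  {c | HornClause G π c.1 c.2}

/-- Satisfiability of a set of Horn clauses (body, head): there is a set `τ` of true variables
such that for every clause whose body is contained in `τ`, the head is a variable in `τ`. -/
def Satisfiable {A : Type*} (F : Set (Set A × Option A)) : Prop :=
  ∃ τ : Set A, ∀ c ∈ F, c.1 ⊆ τ → ∃ a ∈ τ, c.2 = some a

end Pool.Agent.TSpan94
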