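import Pool.Agent.TSpan94.Defs

/-!
# Derivability in the Horn formula
-/

set_option autoImplicit false

namespace Pool.Agent.TSpan94

open SimpleGraph

variable {V : Type*}

/-- The atoms derived by the Horn clauses. -/
inductive Der (G : SimpleGraph V) (π : V → ℕ) : Atom V → Prop
  | refl (j x y m : V) : Der G π (.imp j x y m m)
  | top (j x y m : V) : Der G π (.imp j x y m y)
  | trans (j x y a b c : V) (h₁ : Der G π (.imp j x y a b)) (h₂ : Der G π (.imp j x y b c)) :
      Der G π (.imp j x y a c)
  | swap (j x y a b : V) (h : Der G π (.imp j y x b a)) : Der G π (.imp j x y a b)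
  | far (j x y m : V) (hm : m = j ∨ Later G π j m) (hx : m ≠ x) (hy : m ≠ y)
      (ha : ¬ G.Adj m x) : Der G π (.imp j x y y m)
  | mixed (j l x y a b : V) (hl : Child G π l j) (ha : Later G π l a) (hb : Later G π l b)
      (hax : a ≠ x) (hay : a ≠ y) (hbx : b ≠ x) (hby : b ≠ y)
      (h : Der G π (.imp l x y a b)) : Der G π (.imp j x y a b)
  | pure (j l x y a : V) (hl : Child G π l j) (ha : Later G π l a)
      (hax : a ≠ x) (hay : a ≠ y) (h₁ : Der G π (.bad l x)) (h₂ : Der G π (.imp l x y y a)) :
      Der G π (.imp j x y y a)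
  | edge (j l x y : V) (hl : Child G π l j) (ha : ∀ a, Later G π l a → a = x ∨ a = y)
      (h : Der G π (.bad l x)) : Der G π (.imp j x y y x)
  | fail (j x y s : V) (hs : (Later G π j s ∧ s ≠ y) ∨ s = x)
      (h : Der G π (.imp j x y y s)) : Der G π (.fail j x y)
  | bad (j c : V) (h : ∀ x y, Choice G π j c x y → Der G π (.fail j x y)) :
      Der G π (.bad j c)

end Pool.Agent.TSpan94
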