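import Pool.Agent.TSpan94.Der
import Pool.Agent.TSpan33.Tree
import Pool.Agent.TSpan33.Defs

/-!
# The derived atoms hold in every tree 3-spanner
-/

set_option autoImplicit false

namespace Pool.Agent.TSpan94

open SimpleGraph Pool.Agent.TSpan33

variable {V : Type*} {G T : SimpleGraph V} {π : V → ℕ}

/-- the first later neighbour sees the other later neighbours -/
theorem Par.later (hπ : IsPEO G π) {l j m : V} (h : Par G π l j) (hm : Later G π l m) :
    m = j ∨ Later G π j m := by
  by_cases e : m = j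
  · exact Or.inl e
  · right
    refine ⟨(hπ.2 l m j hm h.1 e).symm, ?_⟩
    have h1 := h.2 m hm
    have h2 : π m ≠ π j := fun e' => e (hπ.1 e')
    omega

/-- the tree governs the clique of `j` by `xy` -/
def Gov (G T : SimpleGraph V) (π : V → ℕ) (j x y : V) : Prop :=
  T.Adj x y ∧ ∀ q, (q = j ∨ Later G π j q) → T.dist q x ≤ 1 ∨ T.dist q y ≤ 1

/-- meaning of the atoms in a tree -/
def Sem (G T : SimpleGraph V) (π : V → ℕ) : Atom V → Prop
  | .imp j x y a b => Gov G T π j x y → T.dist a y < T.dist a x → T.dist b y < T.dist b x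
  | .fail j x y => ¬ (Gov G T π j x y ∧ ∀ s, Later G π j s → T.dist s x ≤ 1)
  | .bad j c => (Later G π j c ∨ ∃ a b, Later G π j a ∧ Later G π j b ∧ a ≠ b) →
      ¬ ∀ s, Later G π j s → T.dist s c ≤ 1

/-- a neighbour closer to a given vertex -/
theorem exists_closer (hc : T.Connected) {u v : V} (h : u ≠ v) :
    ∃ z, T.Adj v z ∧ T.dist u v = T.dist u z + 1 := by
  obtain ⟨P, hP⟩ := hc.exists_walk_length_eq_dist v u
  cases P with
  | nil => exact absurd rfl h
  | cons h1 Q =>
    rename_i z
    refine ⟨z, h1, ?_⟩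
    rw [Walk.length_cons] at hP
    have h2 := dist_le Q
    have h3 : T.dist v u ≤ T.dist v z + T.dist z u := hc.dist_triangle
    have h4 : T.dist v z = 1 := dist_eq_one_iff_adj.2 h1
    rw [T.dist_comm (u := u) (v := v), T.dist_comm (u := u) (v := z)]
    omega

/-- a mixed clique is governed by a unique edge -/
theorem near_of_mixed (hT : T.IsTree) {x y a b v : V} (hxy : T.Adj x y)
    (ha : T.dist a y < T.dist a x) (ha0 : a ≠ y) (hb : T.dist b x < T.dist b y) (hb0 : b ≠ x)
    (hva : T.dist v a ≤ 3) (hvb : T.dist v b ≤ 3) :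
    T.dist v x ≤ 1 ∨ T.dist v y ≤ 1 := by
  have hc := hT.connected
  have h1 := hc.pos_dist_of_ne ha0
  have h2 := hc.pos_dist_of_ne hb0
  rcases hT.dist_eq_dist_add_one_of_adj v hxy with h | h
  · right
    have := dist_cross hT hxy.symm (u := v) (v := b) (by omega) hb
    rw [T.dist_comm (u := x)] at this
    omega
  · left
    have := dist_cross hT hxy (u := v) (v := a) (by omega) ha
    rw [T.dist_comm (u := y)] at this
    omega

theorem child_two {l j : V} (h : Child G π l j) :
    ∃ a b, Later G π l a ∧ Later G π l b ∧ a ≠ b := by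
  obtain ⟨h1, a, h2, h3⟩ := h
  exact ⟨a, j, h2, h1.1, h3⟩

theorem gov_child (hT : T.IsTree) (hπ : IsPEO G π) (h3 : ∀ u v, G.Adj u v → T.dist u v ≤ 3)
    {j l x y a b : V} (hl : Child G π l j) (hg : Gov G T π j x y)
    (hla : Later G π l a) (hlb : Later G π l b)
    (ha : T.dist a y < T.dist a x) (ha0 : a ≠ y) (hb : T.dist b x < T.dist b y) (hb0 : b ≠ x) :
    Gov G T π l x y := by
  refine ⟨hg.1, ?_⟩
  rintro q (rfl | hq)
  · exact near_of_mixed hT hg.1 ha ha0 hb hb0 (h3 _ _ hla.1) (h3 _ _ hlb.1)
  · exact hg.2 q (hl.1.later hπ hq)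

/-- the next edge at a pure clique -/
theorem exists_choice (hT : T.IsTree) (hTG : T ≤ G)
    (h3 : ∀ u v, G.Adj u v → T.dist u v ≤ 3) {j c : V}
    (h0 : Later G π j c ∨ ∃ a b, Later G π j a ∧ Later G π j b ∧ a ≠ b)
    (h1 : ∀ s, Later G π j s → T.dist s c ≤ 1) :
    ∃ x y, Choice G π j c x y ∧ Gov G T π j x y ∧ ∀ s, Later G π j s → T.dist s x ≤ 1 := by
  have hc := hT.connected
  by_cases hjc : j = c
  · subst hjc
    obtain ⟨s, hs⟩ : ∃ s, Later G π j s := by
      rcases h0 with h | ⟨a, _, h, _⟩
      · exact ⟨_, h⟩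
      · exact ⟨_, h⟩
    have hsj : s ≠ j := by
      rintro rfl
      exact lt_irrefl _ hs.2
    obtain ⟨z, hz, _⟩ := exists_closer hc hsj
    refine ⟨j, z, ⟨hTG hz, Or.inl rfl⟩, ⟨hz, ?_⟩, h1⟩
    rintro q (rfl | hq)
    · left
      simp
    · exact Or.inl (h1 q hq)
  obtain ⟨z, hz, hzd⟩ := exists_closer hc hjc
  by_cases hd : T.dist j c ≤ 2
  · refine ⟨c, z, ⟨hTG hz, Or.inl rfl⟩, ⟨hz, ?_⟩, h1⟩
    rintro q (rfl | hq)
    · right
      omega
    · exact Or.inl (h1 q hq)
  have hall : ∀ s, Later G π j s → s = c ∨ s = z := by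
    intro s hs
    by_contra hcon
    push Not at hcon
    have hsc : T.Adj c s := (adj_of_le_one hc hcon.1 (h1 s hs)).symm
    have hjs := h3 _ _ hs.1
    rcases hT.dist_eq_dist_add_one_of_adj j hsc with h | h
    · -- both `s` and `z` are closer
      have hzs : T.dist z s = 2 := by
        have := dist_cross hT hsc (u := z) (v := s) (by
          have h5 : T.dist z c = 1 := dist_eq_one_iff_adj.2 hz.symm
          have h6 : T.dist z s ≠ 0 := by
            intro e
            exact hcon.2 ((hc.dist_eq_zero_iff).1 e).symm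
          have h7 := hT.dist_eq_dist_add_one_of_adj z hsc
          omega) (by
          have h5 : T.dist s c = 1 := dist_eq_one_iff_adj.2 hsc.symm
          have h6 : T.dist s s = 0 := by simp
          omega)
        have h5 : T.dist z c = 1 := dist_eq_one_iff_adj.2 hz.symm
        have h6 : T.dist s s = 0 := by simp
        omega
      have h8 := dist_cross hT hz.symm (u := j) (v := s) (by omega) (by
          have h5 : T.dist s c = 1 := dist_eq_one_iff_adj.2 hsc.symm
          rw [T.dist_comm (u := s) (v := z)]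
          omega)
      have h5 : T.dist c s = 1 := dist_eq_one_iff_adj.2 hsc
      omega
    · omega
  have hLc : Later G π j c := by
    rcases h0 with h | ⟨a, b, ha, hb, hab⟩
    · exact h
    · rcases hall a ha with rfl | rfl
      · exact ha
      · rcases hall b hb with rfl | rfl
        · exact hb
        · exact absurd rfl hab
  have hd3 : T.dist j c = 3 := by
    have := h3 _ _ hLc.1
    omega
  have hjz : j ≠ z := by
    rintro rfl
    have : T.dist j j = 0 := by simp
    omega
  obtain ⟨y, hy, hyd⟩ := exists_closer hc hjz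
  have hyc : y ≠ c := by
    rintro rfl
    omega
  refine ⟨z, y, ⟨hTG hy, Or.inr ⟨hLc, hTG hz, hyc, hall⟩⟩, ⟨hy, ?_⟩, ?_⟩
  · rintro q (rfl | hq)
    · right
      omega
    · left
      rcases hall q hq with rfl | rfl
      · rw [dist_eq_one_iff_adj.2 hz]
      · simp
  · intro q hq
    rcases hall q hq with rfl | rfl
    · rw [dist_eq_one_iff_adj.2 hz]
    · simp

theorem sound (hT : T.IsTree) (hTG : T ≤ G) (hπ : IsPEO G π)
    (h3 : ∀ u v, G.Adj u v → T.dist u v ≤ 3) {A : Atom V} (h : Der G π A) : Sem G T π A := by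
  have hc := hT.connected
  induction h with
  | refl j x y m => exact fun _ h => h
  | top j x y m =>
    intro hg _
    have h5 : T.dist y x = 1 := dist_eq_one_iff_adj.2 hg.1.symm
    have h6 : T.dist y y = 0 := by simp
    omega
  | trans j x y a b c h₁ h₂ ih₁ ih₂ => exact fun hg h => ih₂ hg (ih₁ hg h)
  | swap j x y a b h ih =>
    intro hg hab
    have hg' : Gov G T π j y x := ⟨hg.1.symm, fun q hq => (hg.2 q hq).symm⟩
    have := ih hg'
    rcases hT.dist_eq_dist_add_one_of_adj b hg.1 with h | h <;> omega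
  | far j x y m hm hx hy ha =>
    intro hg _
    have h1 : ¬ T.dist m x ≤ 1 := fun h => ha (hTG (adj_of_le_one hc hx h))
    rcases hg.2 m hm with h | h
    · exact absurd h h1
    · have := hT.dist_eq_dist_add_one_of_adj m hg.1
      omega
  | mixed j l x y a b hl ha hb hax hay hbx hby h ih =>
    intro hg hab
    by_contra hcon
    have hb' : T.dist b x < T.dist b y := by
      have := hT.dist_eq_dist_add_one_of_adj b hg.1
      omega
    exact hcon (ih (gov_child hT hπ h3 hl hg ha hb hab hay hb' hbx) hab)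
  | pure j l x y a hl ha hax hay h₁ h₂ ih₁ ih₂ =>
    intro hg hy
    have h4 := ih₁ (Or.inr (child_two hl))
    push Not at h4
    obtain ⟨m, hm, hmx⟩ := h4
    by_contra hcon
    have ha' : T.dist a x < T.dist a y := by
      have := hT.dist_eq_dist_add_one_of_adj a hg.1
      omega
    have hmy : T.dist m y < T.dist m x := by
      rcases hg.2 m (hl.1.later hπ hm) with h | h <;> omega
    have hm0 : m ≠ y := by
      rintro rfl
      have h5 : T.dist m x = 1 := dist_eq_one_iff_adj.2 hg.1.symm
      omega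
    exact hcon (ih₂ (gov_child hT hπ h3 hl hg hm ha hmy hm0 ha' hax) hy)
  | edge j l x y hl ha h ih =>
    intro hg _
    exfalso
    refine ih (Or.inr (child_two hl)) ?_
    intro s hs
    rcases ha s hs with rfl | rfl
    · simp
    · rw [dist_eq_one_iff_adj.2 hg.1.symm]
  | fail j x y s hs h ih =>
    rintro ⟨hg, h4⟩
    have h5 : T.dist y x = 1 := dist_eq_one_iff_adj.2 hg.1.symm
    have h6 : T.dist y y = 0 := by simp
    have h7 := ih hg (by omega)
    rcases hs with ⟨hs, hsy⟩ | rfl
    · have := h4 s hs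
      have := hc.pos_dist_of_ne hsy
      omega
    · have : T.dist s s = 0 := by simp
      omega
  | bad j c h ih =>
    intro h0 h1
    obtain ⟨x, y, hxy, hg, hs⟩ := exists_choice hT hTG h3 h0 h1
    exact ih x y hxy ⟨hg, hs⟩

end Pool.Agent.TSpan94
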