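import Pool.Agent.TSpan94.Build

/-!
# The induction over the elimination tree
-/

set_option autoImplicit false

namespace Pool.Agent.TSpan94

open SimpleGraph Pool.Agent.TSpan33

variable {V : Type*} {G : SimpleGraph V} {π : V → ℕ}

/-- `j` and its later neighbours -/
def Cl (G : SimpleGraph V) (π : V → ℕ) (j w : V) : Prop := w = j ∨ Later G π j w

/-- vertices of a star -/
def starS (Q : V → Prop) (c w : V) : Prop := Q w ∨ w = c

/-- edges of a star -/
def starE (Q : V → Prop) (c a b : V) : Prop := Q a ∧ a ≠ c ∧ b = c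

/-- vertices of a double star -/
def crossS (Q : V → Prop) (x y w : V) : Prop := Q w ∨ w = x ∨ w = y

/-- edges of a double star -/
def crossE (Q : V → Prop) (x y : V) (U : V → Prop) (a b : V) : Prop :=
  (a = x ∧ b = y) ∨ (Q a ∧ a ≠ x ∧ a ≠ y ∧ ((U a ∧ b = y) ∨ (¬ U a ∧ b = x)))

/-- consistent labelling of the clique of `j` -/
structure Tau (G : SimpleGraph V) (π : V → ℕ) (j x y : V) (U : V → Prop) : Prop where
  adj : G.Adj x y
  up : ∀ a b, Der G π (.imp j x y a b) → U a → U b
  hy : U y
  hx : ¬ U x

theorem Tau.symm {j x y : V} {U : V → Prop} (h : Tau G π j x y U) :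
    Tau G π j y x (fun w => ¬ U w) :=
  ⟨h.adj.symm, fun a b hab ha hb => ha (h.up b a (Der.swap _ _ _ _ _ hab) hb), h.hx,
    fun h' => h' h.hy⟩

theorem Tau.adj_x {j x y : V} {U : V → Prop} (h : Tau G π j x y U) {q : V} (hq : Cl G π j q)
    (hx : q ≠ x) (hy : q ≠ y) (hU : ¬ U q) : G.Adj q x := by
  by_contra hn
  exact hU (h.up y q (Der.far j x y q hq hx hy hn) h.hy)

theorem Tau.adj_y {j x y : V} {U : V → Prop} (h : Tau G π j x y U) {q : V} (hq : Cl G π j q)
    (hx : q ≠ x) (hy : q ≠ y) (hU : U q) : G.Adj q y :=
  h.symm.adj_x hq hy hx (fun h' => h' hU)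

theorem Tau.bad_x {j x y : V} {U : V → Prop} (h : Tau G π j x y U) {l : V}
    (hl : Child G π l j) (hs : ∀ s, Later G π l s → s = x ∨ s = y ∨ ¬ U s) :
    ¬ Der G π (.bad l x) := by
  intro hb
  have hf : Der G π (.fail l x y) := by
    cases hb with
    | bad _ _ h' => exact h' x y ⟨h.adj, Or.inl rfl⟩
  cases hf with
  | fail _ _ _ s hs' himp =>
    by_cases hex : ∃ m, Later G π l m ∧ m ≠ x ∧ m ≠ y
    · have key : ∃ m, Later G π l m ∧ m ≠ x ∧ m ≠ y ∧ Der G π (.imp l x y y m) := by
        by_cases hsx : s = x
        · subst hsx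
          obtain ⟨m, hm, hmx, hmy⟩ := hex
          exact ⟨m, hm, hmx, hmy, Der.trans _ _ _ _ _ _ himp
            (Der.swap _ _ _ _ _ (Der.top _ _ _ _))⟩
        · rcases hs' with ⟨h1, h2⟩ | h1
          · exact ⟨s, h1, hsx, h2, himp⟩
          · exact absurd h1 hsx
      obtain ⟨m, hm, hmx, hmy, hd⟩ := key
      have hU := h.up y m (Der.pure j l x y m hl hm hmx hmy hb hd) h.hy
      rcases hs m hm with h1 | h1 | h1
      · exact hmx h1
      · exact hmy h1
      · exact h1 hU
    · push Not at hex
      refine h.hx (h.up y x (Der.edge j l x y hl ?_ hb) h.hy)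
      intro a ha
      by_cases hax : a = x
      · exact Or.inl hax
      · exact Or.inr (hex a ha hax)

theorem Tau.bad_y {j x y : V} {U : V → Prop} (h : Tau G π j x y U) {l : V}
    (hl : Child G π l j) (hs : ∀ s, Later G π l s → s = x ∨ s = y ∨ U s) :
    ¬ Der G π (.bad l y) := by
  refine h.symm.bad_x hl (fun s hs' => ?_)
  rcases hs s hs' with h1 | h1 | h1
  · exact Or.inr (Or.inl h1)
  · exact Or.inl h1
  · exact Or.inr (Or.inr (fun h2 => h2 h1))

theorem Tau.mixed {j x y : V} {U : V → Prop} (h : Tau G π j x y U) {l a b : V}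
    (hl : Child G π l j) (ha : Later G π l a) (hb : Later G π l b)
    (hax : a ≠ x) (hay : a ≠ y) (hbx : b ≠ x) (hby : b ≠ y) (hUa : U a) (hUb : ¬ U b) :
    ¬ Der G π (.imp l x y a b) :=
  fun hd => hUb (h.up a b (Der.mixed j l x y a b hl ha hb hax hay hbx hby hd) hUa)

/-- consistent states of the later neighbours of `j` -/
inductive Good (G : SimpleGraph V) (π : V → ℕ) (j : V) : (V → Prop) → (V → V → Prop) → Prop
  | star (c : V) (h₀ : Later G π j c ∨ ∃ a b, Later G π j a ∧ Later G π j b ∧ a ≠ b)
      (h : ¬ Der G π (.bad j c)) : Good G π j (starS (Later G π j) c) (starE (Later G π j) c)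
  | cross (x y : V) (U : V → Prop) (hxy : G.Adj x y)
      (ha : ∃ a, Later G π j a ∧ a ≠ x ∧ a ≠ y ∧ U a)
      (hb : ∃ b, Later G π j b ∧ b ≠ x ∧ b ≠ y ∧ ¬ U b)
      (h : ∀ a b, Later G π j a → Later G π j b → a ≠ x → a ≠ y → b ≠ x → b ≠ y →
        U a → ¬ U b → ¬ Der G π (.imp j x y a b)) :
      Good G π j (crossS (Later G π j) x y) (crossE (Later G π j) x y U)

theorem not_below_of_cl {l j w : V} (hl : Par G π l j) (hw : Cl G π j w) : ¬ Below G π w l := by
  intro h
  have h1 := below_le h
  have h2 := par_lt hl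
  rcases hw with rfl | hw
  · omega
  · have := hw.2
    omega

theorem later_of_adj_below (hπ : IsPEO G π) {l j w u : V} (hl : Par G π l j) (hw : Cl G π j w)
    (hu : Below G π u l) (h : G.Adj u w) : Later G π l w := by
  rcases below_adj hπ hu h with h1 | h1
  · exact absurd h1 (not_below_of_cl hl hw)
  · exact h1

theorem carry_y (hπ : IsPEO G π) {j x y l : V} {U : V → Prop} (h : Tau G π j x y U)
    (hu : ∃ u, Cl G π j u ∧ U u) (hq : ∃ q, Cl G π j q ∧ ¬ U q) (hl : Par G π l j)
    (hy : Below G π y l) :
    (∃ u, Later G π l u ∧ u ≠ x ∧ u ≠ y ∧ U u) ∧ (∃ r, Later G π l r ∧ ¬ U r) := by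
  obtain ⟨u, hu, hUu⟩ := hu
  obtain ⟨q, hq, hUq⟩ := hq
  have huy : u ≠ y := by
    rintro rfl
    exact not_below_of_cl hl hu hy
  have hux : u ≠ x := by
    rintro rfl
    exact h.hx hUu
  have h1 : Later G π l u := later_of_adj_below hπ hl hu hy (h.adj_y hu hux huy hUu).symm
  refine ⟨⟨u, h1, hux, huy, hUu⟩, ?_⟩
  rcases below_adj hπ hy h.adj.symm with h2 | h2
  · have hqx : q ≠ x := by
      rintro rfl
      exact not_below_of_cl hl hq h2
    have hqy : q ≠ y := by
      rintro rfl
      exact hUq h.hy
    exact ⟨q, later_of_adj_below hπ hl hq h2 (h.adj_x hq hqx hqy hUq).symm, hUq⟩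
  · exact ⟨x, h2, h.hx⟩

/-- the top level hypothesis -/
def Top (G : SimpleGraph V) (π : V → ℕ) : Prop :=
  ∀ l s, Later G π l s → (∀ a, Later G π l a → a = s) → ¬ Der G π (.bad l s)

theorem cross_child (hπ : IsPEO G π) (htop : Top G π) {j x y l : V} {U : V → Prop}
    (h : Tau G π j x y U)
    (hu : ∃ u, Cl G π j u ∧ U u) (hq : ∃ q, Cl G π j q ∧ ¬ U q) (hl : Par G π l j) :
    ∃ S' E', Good G π l S' E' ∧ (∀ w, S' w → crossS (Cl G π j) x y w) ∧
      (∀ a b, E' a b → St (crossE (Cl G π j) x y U) a b) ∧
      (∀ w, crossS (Cl G π j) x y w → Below G π w l → S' w) := by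
  classical
  have hsub : ∀ w, Later G π l w → Cl G π j w := fun w hw => hl.later hπ hw
  have hcy := carry_y hπ h hu hq hl
  have hcx := carry_y hπ h.symm hq (by
    obtain ⟨u, h1, h2⟩ := hu
    exact ⟨u, h1, fun h' => h' h2⟩) hl
  have hcl : ∀ w, crossS (Cl G π j) x y w → Below G π w l → w = x ∨ w = y := by
    intro w hw hb
    rcases hw with hw | hw
    · exact absurd hb (not_below_of_cl hl hw)
    · exact hw
  by_cases htwo : ∃ a, Later G π l a ∧ a ≠ j
  · have hC : Child G π l j := ⟨hl, htwo⟩
    by_cases h1 : ∀ s, Later G π l s → s = x ∨ s = y ∨ ¬ U s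
    · refine ⟨_, _, Good.star x (Or.inr (child_two hC)) (h.bad_x hC h1), ?_, ?_, ?_⟩
      · rintro w (hw | hw)
        · exact Or.inl (hsub w hw)
        · exact Or.inr (Or.inl hw)
      · rintro a b ⟨ha, hax, rfl⟩
        by_cases hay : a = y
        · subst hay
          exact Or.inr (Or.inr (Or.inl ⟨rfl, rfl⟩))
        · have hUa : ¬ U a := by
            rcases h1 a ha with h2 | h2 | h2
            · exact absurd h2 hax
            · exact absurd h2 hay
            · exact h2
          exact Or.inr (Or.inl (Or.inr ⟨hsub a ha, hax, hay, Or.inr ⟨hUa, rfl⟩⟩))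
      · intro w hw hb
        rcases hcl w hw hb with rfl | rfl
        · exact Or.inr rfl
        · exfalso
          obtain ⟨⟨u, h2, h3, h4, h5⟩, _⟩ := hcy hb
          rcases h1 u h2 with h6 | h6 | h6
          · exact h3 h6
          · exact h4 h6
          · exact h6 h5
    by_cases h2 : ∀ s, Later G π l s → s = x ∨ s = y ∨ U s
    · refine ⟨_, _, Good.star y (Or.inr (child_two hC)) (h.bad_y hC h2), ?_, ?_, ?_⟩
      · rintro w (hw | hw)
        · exact Or.inl (hsub w hw)
        · exact Or.inr (Or.inr hw)
      · rintro a b ⟨ha, hay, rfl⟩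
        by_cases hax : a = x
        · subst hax
          exact Or.inr (Or.inl (Or.inl ⟨rfl, rfl⟩))
        · have hUa : U a := by
            rcases h2 a ha with h3 | h3 | h3
            · exact absurd h3 hax
            · exact absurd h3 hay
            · exact h3
          exact Or.inr (Or.inl (Or.inr ⟨hsub a ha, hax, hay, Or.inl ⟨hUa, rfl⟩⟩))
      · intro w hw hb
        rcases hcl w hw hb with rfl | rfl
        · exfalso
          obtain ⟨⟨u, h3, h4, h5, h6⟩, _⟩ := hcx hb
          rcases h2 u h3 with h7 | h7 | h7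
          · exact h5 h7
          · exact h4 h7
          · exact h6 h7
        · exact Or.inr rfl
    · push Not at h1 h2
      obtain ⟨a, ha, hax, hay, hUa⟩ := h1
      obtain ⟨b, hb, hbx, hby, hUb⟩ := h2
      refine ⟨_, _, Good.cross x y U h.adj ⟨a, ha, hax, hay, hUa⟩ ⟨b, hb, hbx, hby, hUb⟩
        (fun a b ha hb hax hay hbx hby hUa hUb =>
          h.mixed hC ha hb hax hay hbx hby hUa hUb), ?_, ?_, ?_⟩
      · rintro w (hw | hw)
        · exact Or.inl (hsub w hw)
        · exact Or.inr hw
      · rintro a b (hab | ⟨h3, h4⟩)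
        · exact Or.inr (Or.inl (Or.inl hab))
        · exact Or.inr (Or.inl (Or.inr ⟨hsub a h3, h4⟩))
      · intro w hw hb
        exact Or.inr (hcl w hw hb)
  · push Not at htwo
    refine ⟨_, _, Good.star j (Or.inl hl.1) (htop l j hl.1 htwo), ?_, ?_, ?_⟩
    · rintro w (hw | hw)
      · exact Or.inl (hsub w hw)
      · exact Or.inl (Or.inl hw)
    · rintro a b ⟨ha, haj, _⟩
      exact absurd (htwo a ha) haj
    · intro w hw hb
      exfalso
      rcases hcl w hw hb with rfl | rfl
      · obtain ⟨⟨u, h3, h4, h5, h6⟩, ⟨r, h7, h8⟩⟩ := hcx hb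
        have e1 := htwo u h3
        have e2 := htwo r h7
        subst e1
        subst e2
        exact h8 h6
      · obtain ⟨⟨u, h3, h4, h5, h6⟩, ⟨r, h7, h8⟩⟩ := hcy hb
        have e1 := htwo u h3
        have e2 := htwo r h7
        subst e1
        subst e2
        exact h8 h6

theorem star_child (hπ : IsPEO G π) (htop : Top G π) {j x y l : V} {U : V → Prop}
    (h : Tau G π j x y U) (hU : ∀ q, Cl G π j q → ¬ U q) (hj : ∃ a, Later G π j a)
    (hl : Par G π l j) :
    ∃ S' E', Good G π l S' E' ∧ (∀ w, S' w → starS (Cl G π j) x w) ∧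
      (∀ a b, E' a b → St (starE (Cl G π j) x) a b) ∧
      (∀ w, starS (Cl G π j) x w → Below G π w l → S' w) := by
  classical
  have hsub : ∀ w, Later G π l w → Cl G π j w := fun w hw => hl.later hπ hw
  have hcl : ∀ w, starS (Cl G π j) x w → Below G π w l → w = x := by
    intro w hw hb
    rcases hw with hw | hw
    · exact absurd hb (not_below_of_cl hl hw)
    · exact hw
  by_cases htwo : ∃ a, Later G π l a ∧ a ≠ j
  · have hC : Child G π l j := ⟨hl, htwo⟩
    refine ⟨_, _, Good.star x (Or.inr (child_two hC))
      (h.bad_x hC (fun s hs => Or.inr (Or.inr (hU s (hsub s hs))))), ?_, ?_, ?_⟩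
    · rintro w (hw | hw)
      · exact Or.inl (hsub w hw)
      · exact Or.inr hw
    · rintro a b ⟨ha, hax, rfl⟩
      exact Or.inr (Or.inl ⟨hsub a ha, hax, rfl⟩)
    · intro w hw hb
      exact Or.inr (hcl w hw hb)
  · push Not at htwo
    refine ⟨_, _, Good.star j (Or.inl hl.1) (htop l j hl.1 htwo), ?_, ?_, ?_⟩
    · rintro w (hw | hw)
      · exact Or.inl (hsub w hw)
      · exact Or.inl (Or.inl hw)
    · rintro a b ⟨ha, haj, _⟩
      exact absurd (htwo a ha) haj
    · intro w hw hb
      exfalso
      have e := hcl w hw hb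
      subst e
      obtain ⟨a, ha⟩ := hj
      have haw : a ≠ w := by
        rintro rfl
        exact not_below_of_cl hl (Or.inr ha) hb
      have hay : a ≠ y := by
        rintro rfl
        exact hU a (Or.inr ha) h.hy
      have := htwo a (later_of_adj_below hπ hl (Or.inr ha) hb
        (h.adj_x (Or.inr ha) haw hay (hU a (Or.inr ha))).symm)
      subst this
      exact lt_irrefl _ ha.2

/-- the part below `j` for a consistent labelling of its clique -/
theorem tau_ext (hπ : IsPEO G π) (htop : Top G π) {j x y : V} {U : V → Prop}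
    (IH : ∀ l, Par G π l j → ∀ S E, Good G π l S E → Ext G π l S E)
    (h : Tau G π j x y U) (hj : ∃ a, Later G π j a) (hq : ∃ q, Cl G π j q ∧ ¬ U q) :
    ((∀ q, Cl G π j q → ¬ U q) ∧ Ext G π j (starS (Cl G π j) x) (starE (Cl G π j) x)) ∨
    ((∃ u, Cl G π j u ∧ U u) ∧
      Ext G π j (crossS (Cl G π j) x y) (crossE (Cl G π j) x y U)) := by
  classical
  by_cases hu : ∃ u, Cl G π j u ∧ U u
  · right
    refine ⟨hu, ext_join hπ (Or.inl (Or.inl rfl)) ?_ ?_⟩
    · intro l hl
      obtain ⟨S', E', h1, h2, h3, h4⟩ := cross_child hπ htop h hu hq hl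
      exact ⟨S', E', IH l hl _ _ h1, h2, h3, h4⟩
    · intro v hv
      have hub : ∀ q, Cl G π j q → ∃ z, (z = x ∨ z = y) ∧ St (crossE (Cl G π j) x y U) q z := by
        intro q hq
        by_cases hx : q = x
        · exact ⟨x, Or.inl rfl, Or.inl hx⟩
        by_cases hy : q = y
        · exact ⟨y, Or.inr rfl, Or.inl hy⟩
        by_cases hUq : U q
        · exact ⟨y, Or.inr rfl, Or.inr (Or.inl (Or.inr ⟨hq, hx, hy, Or.inl ⟨hUq, rfl⟩⟩))⟩
        · exact ⟨x, Or.inl rfl, Or.inr (Or.inl (Or.inr ⟨hq, hx, hy, Or.inr ⟨hUq, rfl⟩⟩))⟩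
      obtain ⟨z, hz, hz'⟩ := hub j (Or.inl rfl)
      obtain ⟨z', hz1, hz2⟩ := hub v (Or.inr hv)
      refine ⟨z, z', hz', ?_, hz2.symm⟩
      rcases hz with rfl | rfl <;> rcases hz1 with rfl | rfl
      · exact Or.inl rfl
      · exact Or.inr (Or.inl (Or.inl ⟨rfl, rfl⟩))
      · exact Or.inr (Or.inr (Or.inl ⟨rfl, rfl⟩))
      · exact Or.inl rfl
  · left
    push Not at hu
    refine ⟨hu, ext_join hπ (Or.inl (Or.inl rfl)) ?_ ?_⟩
    · intro l hl
      obtain ⟨S', E', h1, h2, h3, h4⟩ := star_child hπ htop h hu hj hl
      exact ⟨S', E', IH l hl _ _ h1, h2, h3, h4⟩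
    · intro v hv
      have hub : ∀ q, Cl G π j q → St (starE (Cl G π j) x) q x := by
        intro q hq
        by_cases hx : q = x
        · exact Or.inl hx
        · exact Or.inr (Or.inl ⟨hq, hx, rfl⟩)
      exact ⟨x, x, hub j (Or.inl rfl), Or.inl rfl, (hub v (Or.inr hv)).symm⟩

theorem not_later_self {j : V} : ¬ Later G π j j := fun h => lt_irrefl _ h.2

/-- the star at `x` -/
theorem star_ext (hπ : IsPEO G π) (htop : Top G π) {j x y : V} {U : V → Prop}
    (IH : ∀ l, Par G π l j → ∀ S E, Good G π l S E → Ext G π l S E)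
    (h : Tau G π j x y U) (hj : ∃ a, Later G π j a)
    (hU : ∀ s, Later G π j s → s ≠ y → ¬ U s) (hq : ∃ q, Later G π j q ∧ ¬ U q) :
    Ext G π j (starS (Later G π j) x) (starE (Later G π j) x) := by
  classical
  obtain ⟨q₀, hq₀, hUq₀⟩ := hq
  rcases tau_ext hπ htop IH h hj ⟨q₀, Or.inr hq₀, hUq₀⟩ with ⟨h1, h2⟩ | ⟨⟨u, hu, hUu⟩, h2⟩
  · refine ext_attach h2 ?_ (fun _ => x) (fun _ => 0) (fun _ => by norm_num) ?_ ?_
    · rintro w (hw | hw)
      · exact Or.inl (Or.inr hw)
      · exact Or.inr hw
    · intro w hw hw'
      have hwx : w ≠ x := fun e => hw' (Or.inr e)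
      have hwj : w = j := by
        rcases hw with (hw | hw) | hw
        · exact hw
        · exact absurd (Or.inl hw) hw'
        · exact absurd hw hwx
      subst hwj
      refine ⟨Relation.ReflTransGen.refl, ?_, Or.inl (Or.inr rfl)⟩
      refine h.adj_x (Or.inl rfl) hwx ?_ (h1 w (Or.inl rfl))
      rintro rfl
      exact h1 w (Or.inl rfl) h.hy
    · rintro a b ⟨ha | ha, hax, rfl⟩
      · subst ha
        right; left; right
        exact ⟨Or.inl (Or.inl rfl), fun h' => by
          rcases h' with h' | h'
          · exact not_later_self h'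
          · exact hax h', rfl⟩
      · exact Or.inr (Or.inl (Or.inl ⟨ha, hax, rfl⟩))
  · have hyj : ¬ Later G π j y → u = j := by
      intro hny
      rcases hu with e | hu
      · exact e
      · exfalso
        refine hU u hu ?_ hUu
        rintro rfl
        exact hny hu
    refine ext_attach h2 ?_ (fun w => if w = y then x else if U w then y else x)
      (fun w => if w = y then 1 else 2) (fun w => by split_ifs <;> norm_num) ?_ ?_
    · rintro w (hw | hw)
      · exact Or.inl (Or.inr hw)
      · exact Or.inr (Or.inl hw)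
    · intro w hw hw'
      have hwx : w ≠ x := fun e => hw' (Or.inr e)
      have hwL : ¬ Later G π j w := fun e => hw' (Or.inl e)
      by_cases hwy : w = y
      · subst hwy
        have e := hyj hwL
        subst e
        simp only [if_true]
        refine ⟨?_, h.adj.symm, Or.inl (Or.inr rfl)⟩
        by_cases e : u = w
        · subst e
          exact Relation.ReflTransGen.refl
        · have hux : u ≠ x := by
            rintro rfl
            exact h.hx hUu
          rcases below_adj hπ Relation.ReflTransGen.refl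
            (h.adj_y (Or.inl rfl) hux e hUu) with h3 | h3
          · exact h3
          · exact absurd h3 hwL
      · have hwj : w = j := by
          rcases hw with (hw | hw) | hw | hw
          · exact hw
          · exact absurd hw hwL
          · exact absurd hw hwx
          · exact absurd hw hwy
        subst hwj
        refine ⟨Relation.ReflTransGen.refl, ?_⟩
        by_cases hUw : U w
        · simp only [hwy, hUw, if_true, if_false]
          refine ⟨h.adj_y (Or.inl rfl) hwx hwy hUw, Or.inr ⟨Or.inr (Or.inr rfl), ?_⟩⟩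
          norm_num
        · simp only [hwy, hUw, if_false]
          exact ⟨h.adj_x (Or.inl rfl) hwx hwy hUw, Or.inl (Or.inr rfl)⟩
    · rintro a b (⟨rfl, rfl⟩ | ⟨ha, hax, hay, hab⟩)
      · -- the edge `x y`
        have hxy := h.adj.ne
        by_cases hy : Later G π j b
        · exact Or.inr (Or.inr (Or.inl ⟨hy, hxy.symm, rfl⟩))
        · right; right; right
          refine ⟨Or.inr (Or.inr rfl), ?_, ?_⟩
          · rintro (h' | h')
            · exact hy h'
            · exact hxy h'.symm
          · simp
      · rcases ha with ha | ha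
        · subst ha
          right; left; right
          refine ⟨Or.inl (Or.inl rfl), ?_, ?_⟩
          · rintro (h' | h')
            · exact not_later_self h'
            · exact hax h'
          · rcases hab with ⟨h3, h4⟩ | ⟨h3, h4⟩
            · simp [hay, h3, h4]
            · simp [hay, h3, h4]
        · rcases hab with ⟨h3, h4⟩ | ⟨h3, h4⟩
          · exact absurd h3 (hU a ha hay)
          · exact Or.inr (Or.inl (Or.inl ⟨ha, hax, h4⟩))

theorem good_ext (hπ : IsPEO G π) (htop : Top G π) :
    ∀ n : ℕ, ∀ j, π j < n → ∀ S E, Good G π j S E → Ext G π j S E := by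
  classical
  intro n
  induction n with
  | zero => intro j hj; omega
  | succ n ih =>
    intro j hjn S E hG
    have IH : ∀ l, Par G π l j → ∀ S E, Good G π l S E → Ext G π l S E := by
      intro l hl
      exact ih l (by have := par_lt hl; omega)
    cases hG with
    | star c h₀ hbad =>
      have hex : ∃ x y, Choice G π j c x y ∧ ¬ Der G π (.fail j x y) := by
        by_contra hcon
        push Not at hcon
        exact hbad (Der.bad j c hcon)
      obtain ⟨x, y, ⟨hxy, hch⟩, hfail⟩ := hex
      have hnot : ∀ s, ((Later G π j s ∧ s ≠ y) ∨ s = x) → ¬ Der G π (.imp j x y y s) :=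
        fun s hs hd => hfail (Der.fail j x y s hs hd)
      have hτ : Tau G π j x y (fun q => Der G π (.imp j x y y q)) :=
        ⟨hxy, fun a b hab ha => Der.trans _ _ _ _ _ _ ha hab, Der.refl _ _ _ _,
          hnot x (Or.inr rfl)⟩
      have hU : ∀ s, Later G π j s → s ≠ y → ¬ Der G π (.imp j x y y s) :=
        fun s hs hsy => hnot s (Or.inl ⟨hs, hsy⟩)
      have hj : ∃ a, Later G π j a := by
        rcases h₀ with h | ⟨a, _, h, _⟩
        · exact ⟨_, h⟩
        · exact ⟨_, h⟩
      have hq : ∃ q, Later G π j q ∧ ¬ Der G π (.imp j x y y q) := by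
        rcases hch with e | ⟨h1, h2, h3, h4⟩
        · subst e
          rcases h₀ with h | ⟨a, b, ha, hb, hab⟩
          · exact ⟨x, h, hnot x (Or.inr rfl)⟩
          · by_cases hay : a = y
            · subst hay
              exact ⟨b, hb, hU b hb hab.symm⟩
            · exact ⟨a, ha, hU a ha hay⟩
        · exact ⟨c, h1, hU c h1 h3.symm⟩
      have hmain := star_ext hπ htop IH hτ hj hU hq
      rcases hch with e | ⟨h1, h2, h3, h4⟩
      · subst e
        exact hmain
      · by_cases hx : Later G π j x
        · refine hmain.congr ?_ ?_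
          · intro w
            constructor
            · rintro (hw | hw)
              · exact Or.inl hw
              · subst hw
                exact Or.inl hx
            · rintro (hw | hw)
              · exact Or.inl hw
              · subst hw
                exact Or.inl h1
          · rintro a b ⟨ha, hax, rfl⟩
            rcases h4 a ha with e | e
            · subst e
              exact Or.inr (Or.inr ⟨hx, h2.ne.symm, rfl⟩)
            · exact absurd e hax
        · -- `N⁺(j) = {c}`
          have hbx : Below G π x j := by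
            have hcase : ∀ z, G.Adj x z → Below G π z j → Below G π x j := by
              intro z hz hzj
              rcases below_adj hπ hzj hz.symm with h5 | h5
              · exact h5
              · exact absurd h5 hx
            have hcU : ¬ Der G π (.imp j x y y c) := hU c h1 h3.symm
            by_cases hjx : j = x
            · subst hjx
              exact Relation.ReflTransGen.refl
            by_cases hjy : j = y
            · subst hjy
              exact hcase j hxy Relation.ReflTransGen.refl
            by_cases hUj : Der G π (.imp j x y y j)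
            · have h5 := hτ.adj_y (Or.inl rfl) hjx hjy hUj
              rcases below_adj hπ Relation.ReflTransGen.refl h5 with h6 | h6
              · exact hcase y hxy h6
              · rcases h4 y h6 with e | e
                · exact absurd e h3
                · exact absurd e.symm hxy.ne
            · exact hcase j (hτ.adj_x (Or.inl rfl) hjx hjy hUj).symm Relation.ReflTransGen.refl
          refine ext_attach hmain ?_ (fun _ => c) (fun _ => 0) (fun _ => by norm_num) ?_ ?_
          · rintro w (hw | hw)
            · exact Or.inl hw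
            · subst hw
              exact Or.inl h1
          · intro w hw hw'
            have e : w = x := by
              rcases hw with hw | hw
              · exact absurd (Or.inl hw) hw'
              · exact hw
            subst e
            exact ⟨hbx, h2.symm, Or.inl (Or.inl h1)⟩
          · rintro a b ⟨ha, hax, rfl⟩
            rcases h4 a ha with e | e
            · subst e
              right; right; right
              refine ⟨Or.inr rfl, ?_, rfl⟩
              rintro (h' | h')
              · exact hx h'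
              · exact h2.ne h'.symm
            · exact absurd e hax
    | cross x y U₀ hxy ha₀ hb₀ hno =>
      obtain ⟨a₀, ha₀, hax, hay, hUa₀⟩ := ha₀
      obtain ⟨b₀, hb₀, hbx, hby, hUb₀⟩ := hb₀
      set U : V → Prop := fun q => ∃ k, Later G π j k ∧ k ≠ x ∧ k ≠ y ∧ U₀ k ∧
        Der G π (.imp j x y k q) with hUdef
      have hbot : ∀ q, Der G π (.imp j x y x q) := fun q =>
        Der.swap _ _ _ _ _ (Der.top _ _ _ _)
      have hτ : Tau G π j x y U := by
        refine ⟨hxy, ?_, ?_, ?_⟩
        · rintro a b hab ⟨k, h1, h2, h3, h4, h5⟩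
          exact ⟨k, h1, h2, h3, h4, Der.trans _ _ _ _ _ _ h5 hab⟩
        · exact ⟨a₀, ha₀, hax, hay, hUa₀, Der.top _ _ _ _⟩
        · rintro ⟨k, h1, h2, h3, h4, h5⟩
          exact hno k b₀ h1 hb₀ h2 h3 hbx hby h4 hUb₀ (Der.trans _ _ _ _ _ _ h5 (hbot b₀))
      have hagree : ∀ s, Later G π j s → s ≠ x → s ≠ y → (U s ↔ U₀ s) := by
        intro s hs hsx hsy
        constructor
        · rintro ⟨k, h1, h2, h3, h4, h5⟩
          by_contra hcon
          exact hno k s h1 hs h2 h3 hsx hsy h4 hcon h5
        · intro h
          exact ⟨s, hs, hsx, hsy, h, Der.refl _ _ _ _⟩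
      have hUa : U a₀ := (hagree a₀ ha₀ hax hay).2 hUa₀
      have hUb : ¬ U b₀ := fun h => hUb₀ ((hagree b₀ hb₀ hbx hby).1 h)
      rcases tau_ext hπ htop IH hτ ⟨a₀, ha₀⟩ ⟨b₀, Or.inr hb₀, hUb⟩ with ⟨h1, _⟩ | ⟨_, h2⟩
      · exact absurd hUa (h1 a₀ (Or.inr ha₀))
      · refine ext_attach h2 ?_ (fun w => if U w then y else x) (fun _ => 0)
          (fun _ => by norm_num) ?_ ?_
        · rintro w (hw | hw)
          · exact Or.inl (Or.inr hw)
          · exact Or.inr hw
        · intro w hw hw'
          have hwx : w ≠ x := fun e => hw' (Or.inr (Or.inl e))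
          have hwy : w ≠ y := fun e => hw' (Or.inr (Or.inr e))
          have hwj : w = j := by
            rcases hw with (hw | hw) | hw | hw
            · exact hw
            · exact absurd (Or.inl hw) hw'
            · exact absurd hw hwx
            · exact absurd hw hwy
          subst hwj
          refine ⟨Relation.ReflTransGen.refl, ?_⟩
          by_cases hUw : U w
          · simp only [hUw, if_true]
            exact ⟨hτ.adj_y (Or.inl rfl) hwx hwy hUw, Or.inl (Or.inr (Or.inr rfl))⟩
          · simp only [hUw, if_false]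
            exact ⟨hτ.adj_x (Or.inl rfl) hwx hwy hUw, Or.inl (Or.inr (Or.inl rfl))⟩
        · rintro a b (hab | ⟨ha, hax, hay, hab⟩)
          · exact Or.inr (Or.inl (Or.inl (Or.inl hab)))
          · rcases ha with ha | ha
            · subst ha
              right; left; right
              refine ⟨Or.inl (Or.inl rfl), ?_, ?_⟩
              · rintro (h' | h' | h')
                · exact not_later_self h'
                · exact hax h'
                · exact hay h'
              · rcases hab with ⟨h3, h4⟩ | ⟨h3, h4⟩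
                · simp only [h3, if_true]
                  exact h4.symm
                · simp only [h3, if_false]
                  exact h4.symm
            · right; left; left; right
              refine ⟨ha, hax, hay, ?_⟩
              rw [← hagree a ha hax hay]
              exact hab

/-- the root -/
theorem root_ext (hπ : IsPEO G π) (htop : Top G π) {r : V} (hr : ∀ a, ¬ Later G π r a) :
    Ext G π r (fun w => w = r) (fun _ _ => False) := by
  refine ext_join hπ rfl ?_ ?_
  · intro l hl
    have hone : ∀ a, Later G π l a → a = r := by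
      intro a ha
      rcases hl.later hπ ha with e | h
      · exact e
      · exact absurd h (hr a)
    refine ⟨_, _, good_ext hπ htop (π l + 1) l (by omega) _ _
      (Good.star r (Or.inl hl.1) (htop l r hl.1 hone)), ?_, ?_, ?_⟩
    · rintro w (hw | hw)
      · exact hone w hw
      · exact hw
    · rintro a b ⟨ha, har, _⟩
      exact absurd (hone a ha) har
    · intro w hw _
      exact Or.inr hw
  · intro v hv
    exact absurd hv (hr v)

end Pool.Agent.TSpan94
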