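import Pool.Agent.TSpan94.States

/-!
# The characterisation
-/

set_option autoImplicit false

namespace Pool.Agent.TSpan94

open SimpleGraph Pool.Agent.TSpan33

variable {V : Type*} {G : SimpleGraph V} {π : V → ℕ}

/-- the graph of a parent function -/
def parGraph (p : V → V) (r : V) : SimpleGraph V where
  Adj a b := a ≠ b ∧ ((a ≠ r ∧ p a = b) ∨ (b ≠ r ∧ p b = a))
  symm := ⟨fun _ _ h => ⟨h.1.symm, h.2.symm⟩⟩
  loopless := ⟨fun _ h => h.1 rfl⟩

theorem parGraph_tree [Finite V] (p : V → V) (r : V) (rk : V → ℕ)
    (h : ∀ w, w ≠ r → p w ≠ w ∧ (p w = r ∨ rk (p w) < rk w)) : (parGraph p r).IsTree := by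
  classical
  have hreach : ∀ n : ℕ, ∀ w, rk w < n → (parGraph p r).Reachable w r := by
    intro n
    induction n with
    | zero => intro w hw; omega
    | succ n ih =>
      intro w hw
      by_cases e : w = r
      · subst e
        exact Reachable.refl _
      · obtain ⟨h1, h2⟩ := h w e
        have hadj : (parGraph p r).Adj w (p w) := ⟨h1.symm, Or.inl ⟨e, rfl⟩⟩
        refine hadj.reachable.trans ?_
        rcases h2 with h2 | h2
        · rw [h2]
        · exact ih (p w) (by omega)
  have hconn : (parGraph p r).Connected := by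
    have : Nonempty V := ⟨r⟩
    exact ⟨fun u v => (hreach (rk u + 1) u (by omega)).trans
      (hreach (rk v + 1) v (by omega)).symm⟩
  rw [isTree_iff_connected_and_card]
  refine ⟨hconn, le_antisymm ?_ hconn.card_vert_le_card_edgeSet_add_one⟩
  have hsurj : Function.Surjective
      (fun w : {w : V // w ≠ r} => (⟨s(w.1, p w.1), by
        rw [mem_edgeSet]
        exact ⟨(h w.1 w.2).1.symm, Or.inl ⟨w.2, rfl⟩⟩⟩ : (parGraph p r).edgeSet)) := by
    rintro ⟨e, he⟩
    induction e using Sym2.ind with
    | _ a b =>
      rw [mem_edgeSet] at he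
      rcases he.2 with ⟨h1, h2⟩ | ⟨h1, h2⟩
      · exact ⟨⟨a, h1⟩, by simp [h2]⟩
      · exact ⟨⟨b, h1⟩, by simp [h2, Sym2.eq_swap]⟩
  have h1 : Nat.card (parGraph p r).edgeSet ≤ Nat.card {w : V // w ≠ r} :=
    Nat.card_le_card_of_surjective _ hsurj
  have h2 : Nat.card {w : V // w ≠ r} + 1 = Nat.card V := by
    have := Fintype.ofFinite V
    rw [Nat.card_eq_fintype_card, Nat.card_eq_fintype_card, Fintype.card_subtype_compl]
    have : 0 < Fintype.card V := Fintype.card_pos_iff.2 ⟨r⟩
    simp
    omega
  omega

theorem dist_le_three_mul {T : SimpleGraph V} (hG : G.Connected) (hT : T.Connected)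
    (h : ∀ u v, G.Adj u v → T.dist u v ≤ 3) (u v : V) : T.dist u v ≤ 3 * G.dist u v := by
  obtain ⟨P, hP⟩ := hG.exists_walk_length_eq_dist u v
  rw [← hP]
  clear hP
  induction P with
  | nil => simp
  | cons h1 Q ih =>
    rename_i a b c
    have h2 := h _ _ h1
    have h3 : T.dist a c ≤ T.dist a b + T.dist b c := hT.dist_triangle
    rw [Walk.length_cons]
    omega

/-- **Characterisation.** For a connected graph with a perfect elimination order, a tree
3-spanner exists iff the Horn program derives no `bad l s` with `N⁺(l) = {s}`. -/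
theorem exists_iff [Finite V] (hG : G.Connected) (hπ : IsPEO G π) :
    (∃ T, IsTreeSpanner 3 G T) ↔ Top G π := by
  constructor
  · rintro ⟨T, hTG, hT, hd⟩ l s hs hone hb
    have h3 : ∀ u v, G.Adj u v → T.dist u v ≤ 3 := by
      intro u v huv
      have := hd u v
      rw [dist_eq_one_iff_adj.2 huv] at this
      omega
    refine sound hT hTG hπ h3 hb (Or.inl hs) ?_
    intro a ha
    rw [hone a ha]
    simp
  · intro htop
    have := hG.nonempty
    obtain ⟨r, hr⟩ := Finite.exists_max π
    have hr' : ∀ a, ¬ Later G π r a := fun a ha => by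
      have := hr a
      have := ha.2
      omega
    have hwalk : ∀ (u w : V) (P : G.Walk u w), Below G π u r → Below G π w r := by
      intro u w P
      induction P with
      | nil => exact id
      | cons h Q ih =>
        intro hu
        rcases below_adj hπ hu h with h' | h'
        · exact ih h'
        · exact absurd h' (hr' _)
    have hall : ∀ w, Below G π w r := by
      intro w
      obtain ⟨P⟩ := hG.preconnected r w
      exact hwalk r w P Relation.ReflTransGen.refl
    obtain ⟨p, rk, h1, h2⟩ := root_ext hπ htop hr'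
    have h1' : ∀ w, w ≠ r → G.Adj w (p w) ∧ (p w = r ∨ rk (p w) < rk w) := by
      intro w hw
      obtain ⟨h3, h4⟩ := h1 w (hall w) hw
      exact ⟨h3, h4.imp id (fun h => h.2)⟩
    have hT : (parGraph p r).IsTree :=
      parGraph_tree p r rk (fun w hw => ⟨(h1' w hw).1.ne.symm, (h1' w hw).2⟩)
    have hle : parGraph p r ≤ G := by
      intro a b hab
      rcases hab.2 with ⟨h3, h4⟩ | ⟨h3, h4⟩
      · subst h4
        exact (h1' a h3).1
      · subst h4
        exact (h1' b h3).1.symm
    refine ⟨parGraph p r, hle, hT, dist_le_three_mul hG hT.connected ?_⟩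
    intro u v huv
    have hst : ∀ a b, St (fun a b => False ∨ (Below G π a r ∧ ¬ a = r ∧ p a = b)) a b →
        (parGraph p r).dist a b ≤ 1 := by
      have key : ∀ a b, (False ∨ (Below G π a r ∧ ¬ a = r ∧ p a = b)) →
          (parGraph p r).dist a b ≤ 1 := by
        rintro a b (h | ⟨_, h3, h4⟩)
        · exact h.elim
        · have : (parGraph p r).Adj a b := by
            refine ⟨?_, Or.inl ⟨h3, h4⟩⟩
            rw [← h4]
            exact (h1' a h3).1.ne
          rw [dist_eq_one_iff_adj.2 this]
      rintro a b (h | h | h)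
      · subst h
        simp
      · exact key a b h
      · rw [SimpleGraph.dist_comm]
        exact key b a h
    obtain ⟨a, b, h3, h4, h5⟩ := h2 u v (hall u) huv
    have e1 := hst _ _ h3
    have e2 := hst _ _ h4
    have e3 := hst _ _ h5
    have t1 : (parGraph p r).dist u v ≤ (parGraph p r).dist u a + (parGraph p r).dist a v :=
      hT.connected.dist_triangle
    have t2 : (parGraph p r).dist a v ≤ (parGraph p r).dist a b + (parGraph p r).dist b v :=
      hT.connected.dist_triangle
    omega

end Pool.Agent.TSpan94
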